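import Pool.Agent.H15.IX.TG
import Pool.Agent.H86.IX.CYC

/-!
# Board idx_modules, row CYA: zero-cycles over algebraic extensions of `k((t))`

The proof is the one of the row CYC (helper86) with another ground field.
-/

set_option autoImplicit false

open Finset Pool.Agent.H15.IX
open MvPolynomial Pool.Agent.H13.RE Pool.Agent.H17.IQ

namespace Pool.Agent.H46.IX

universe u

theorem pf_CYA (hCOA : T_COA.{u}) : T_CYA.{u} := by
  classical
  intro k A _ _ _ _ _ _ n s d F y hd hF hdn hy0 hy
  have hch0 : CharZero (LaurentSeries k) :=
    charZero_of_injective_algebraMap (algebraMap k (LaurentSeries k)).injective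
  have hch : CharZero A :=
    charZero_of_injective_algebraMap (algebraMap (LaurentSeries k) A).injective
  have hyK : (fun j => algebraMap A (AlgebraicClosure A) (y j))
      ≠ 0 := by
    intro h
    apply hy0
    funext j
    apply (algebraMap A (AlgebraicClosure A)).injective
    exact (congrFun h j).trans
      (map_zero (algebraMap A (AlgebraicClosure A))).symm
  set q₀ : PP (AlgebraicClosure A) n := Projectivization.mk _ _ hyK with hq₀
  -- every point is equivalent to a multiple of the base point
  have key : ∀ z ∈ Cycles F, z - Pool.Agent.H86.IX.CYC.deg z • Finsupp.single q₀ (1 : ℤ) ∈ Rat F := by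
    intro z hz
    unfold Cycles at hz
    induction hz using AddSubgroup.closure_induction with
    | mem z hz =>
      obtain ⟨E, hE, P, hP0, hP, rfl⟩ := hz
      have hyE : (fun j => algebraMap A E (y j)) ≠ 0 := by
        intro h
        apply hy0
        funext j
        apply (algebraMap A E).injective
        exact (congrFun h j).trans (map_zero (algebraMap A E)).symm
      have e1 : Pool.Agent.H86.IX.CYC.deg (pt E P hP0) • Finsupp.single q₀ (1 : ℤ) =
          pt E (fun j => algebraMap A E (y j)) hyE := by
        rw [Pool.Agent.H86.IX.CYC.deg_pt]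
        unfold pt
        rw [natCast_zsmul, ← Finset.card_univ, ← Finset.sum_const]
        refine Finset.sum_congr rfl fun σ _ => ?_
        congr 1
        rw [hq₀]
        refine (Projectivization.mk_eq_mk_iff' _ _ _ _ _).mpr ⟨1, ?_⟩
        rw [one_smul]
        funext j
        exact σ.commutes (y j)
      rw [e1]
      have hfE : ∀ i, (fE F E i).IsHomogeneous (d i) := fun i => (hF i).map _
      have hPE : Pt [] (fE F E) P := by
        refine ⟨hP0, fun l hl => absurd hl List.not_mem_nil, fun i => ?_⟩
        have := hP i
        rw [← MvPolynomial.aeval_map_algebraMap E P (F i), aeval_eq_eval] at this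
        exact this
      have hyPt : Pt [] (fE F E) (fun j => algebraMap A E (y j)) := by
        refine ⟨hyE, fun l hl => absurd hl List.not_mem_nil, fun i => ?_⟩
        have h1 := MvPolynomial.aeval_algebraMap_apply E y (F i)
        rw [aeval_eq_eval, hy i, map_zero,
          ← MvPolynomial.aeval_map_algebraMap E _ (F i), aeval_eq_eval] at h1
        exact h1
      obtain ⟨D, hD⟩ : ∃ D, D = pt E P hP0 -
        pt E (fun j => algebraMap A E (y j)) hyE := ⟨_, rfl⟩
      rw [← hD]
      obtain ⟨J, hJ⟩ : ∃ J : AddSubgroup ℤ, ∀ m : ℤ, m ∈ J ↔ m • D ∈ Rat F :=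
        ⟨(Rat F).comap (zmultiplesHom _ D), fun m => Iff.rfl⟩
      have h1 : (1 : ℤ) ∈ J := by
        apply Pool.Agent.H86.IX.CYC.one_mem
        intro p hp
        have halg : Algebra.IsAlgebraic (LaurentSeries k) E :=
          Algebra.IsAlgebraic.trans (LaurentSeries k) A E
        obtain ⟨K', iK, iA, iF, hpm, hRE⟩ := hCOA k E n s p d (fE F E) P
          (fun j => algebraMap A E (y j)) hp hd hfE hdn hP0 hyE hPE.2.2 hyPt.2.2
        refine ⟨Module.finrank E K', hpm, ?_⟩
        rw [hJ, natCast_zsmul]
        let iAK : Algebra A K' :=
          ((algebraMap E K').comp (algebraMap A E)).toAlgebra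
        have hST : IsScalarTower A E K' :=
          IsScalarTower.of_algebraMap_eq (fun _ => rfl)
        have hfd : FiniteDimensional A K' := Module.Finite.trans E K'
        let ι : K' →ₐ[E] AlgebraicClosure A := IsAlgClosed.lift
        let ι' : K' →ₐ[A] AlgebraicClosure A :=
          ι.restrictScalars A
        let E' : IntermediateField A (AlgebraicClosure A) :=
          ι'.fieldRange
        let φ : K' ≃ₐ[A] E' := AlgEquiv.ofInjectiveField ι'
        have hE' : FiniteDimensional A E' :=
          Module.Finite.equiv φ.toLinearEquiv
        have h2 := Pool.Agent.H86.IX.CYC.re_map (φ : K' →+* E') _ hRE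
        have h3 : (fun l => MvPolynomial.map (φ : K' →+* E')
            (MvPolynomial.map (algebraMap E K') (fE F E l))) = fE F E' := by
          funext l
          unfold fE
          rw [MvPolynomial.map_map, MvPolynomial.map_map]
          exact congrArg (fun g => MvPolynomial.map g (F l)) (RingHom.ext fun a => φ.commutes a)
        rw [h3] at h2
        have hinj : ∀ Q : Fin (n + 1) → E, Q ≠ 0 → (fun j => φ (algebraMap E K' (Q j))) ≠ 0 := by
          intro Q hQ h0
          apply hQ
          funext j
          apply (algebraMap E K').injective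
          apply φ.injective
          rw [Pi.zero_apply, map_zero, map_zero]
          exact congrFun h0 j
        have hptE' : ∀ Q : Fin (n + 1) → E, Pt [] (fE F E) Q →
            Pt [] (fE F E') (fun j => φ (algebraMap E K' (Q j))) := by
          intro Q hQ
          refine ⟨hinj Q hQ.1, fun l hl => absurd hl List.not_mem_nil, fun i => ?_⟩
          have h4 := MvPolynomial.map_eval ((φ : K' →+* E').comp (algebraMap E K')) Q (fE F E i)
          rw [hQ.2.2 i, map_zero] at h4
          have h5 : fE F E' i =
              MvPolynomial.map ((φ : K' →+* E').comp (algebraMap E K')) (fE F E i) := by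
            rw [← MvPolynomial.map_map]
            exact (congrFun h3 i).symm
          rw [h5]
          exact h4.symm
        have h4 := re_rat h2 (hptE' _ hPE) (hptE' _ hyPt)
        have h5 := Pool.Agent.H86.IX.CYC.pt_mul E K' E' φ P hP0 (hinj _ hP0)
        have h6 := Pool.Agent.H86.IX.CYC.pt_mul E K' E' φ _ hyE (hinj _ hyE)
        rw [hD, smul_sub, ← h5, ← h6]
        exact h4
      rw [hJ, one_smul] at h1
      exact h1
    | zero =>
      rw [map_zero, zero_smul, sub_zero]
      exact (Rat F).zero_mem
    | add x y _ _ hx hy =>
      have := (Rat F).add_mem hx hy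
      rw [map_add, add_smul]
      have e : x + y - (Pool.Agent.H86.IX.CYC.deg x • Finsupp.single q₀ (1 : ℤ) +
          Pool.Agent.H86.IX.CYC.deg y • Finsupp.single q₀ (1 : ℤ)) =
          x - Pool.Agent.H86.IX.CYC.deg x • Finsupp.single q₀ (1 : ℤ) +
          (y - Pool.Agent.H86.IX.CYC.deg y • Finsupp.single q₀ (1 : ℤ)) := by
        abel
      rw [e]
      exact this
    | neg x _ hx =>
      have := (Rat F).neg_mem hx
      rw [map_neg, neg_smul]
      have e : -x - -(Pool.Agent.H86.IX.CYC.deg x • Finsupp.single q₀ (1 : ℤ)) =
          -(x - Pool.Agent.H86.IX.CYC.deg x • Finsupp.single q₀ (1 : ℤ)) := by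
        abel
      rw [e]
      exact this
  intro z hz h0
  have := key z hz
  rw [Pool.Agent.H86.IX.CYC.deg_eq, h0, zero_smul, sub_zero] at this
  exact this

end Pool.Agent.H46.IX
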