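import Pool.Agent.H15.IX.TC

/-!
# idx_modules, row DVT: roots of `t` of order prime to `p`
-/

set_option autoImplicit false

open Finset Pool.Agent.H15.IX

namespace Pool.Agent.H46.IX

universe u

theorem dvt_norm {Ω : Type u} [Field Ω] [IsAlgClosed Ω] (O : ValuationSubring Ω)
    (M : Subfield Ω) [CharZero M] (L : IntermediateField M Ω) [FiniteDimensional M L]
    (hH : Hns O M) (x : L) :
    O.valuation (algebraMap M Ω (Algebra.norm M x)) =
      O.valuation (x : Ω) ^ Module.finrank M L := by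
  rw [Algebra.norm_eq_prod_embeddings M Ω x, map_prod]
  have h : ∀ σ : L →ₐ[M] Ω, O.valuation (σ x) = O.valuation (x : Ω) := by
    intro σ
    have hx : IsIntegral M x := IsIntegral.of_finite M x
    have hx' : IsIntegral M (x : Ω) := hx.map L.val
    refine hH (x : Ω) (σ x) hx' ?_
    have h1 : minpoly M (x : Ω) = minpoly M x :=
      minpoly.algebraMap_eq (algebraMap L Ω).injective x
    rw [h1, Polynomial.aeval_algHom_apply, minpoly.aeval, map_zero]
  rw [Finset.prod_congr rfl fun σ _ => h σ, Finset.prod_const, Finset.card_univ, AlgHom.card]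

theorem dvt_root {k Ω : Type u} [Field k] [IsAlgClosed k] [Field Ω] [Algebra k Ω] {z : Ω}
    {m : ℕ} (hm : 0 < m) (hz : z ^ m = 1) : ∃ c : k, algebraMap k Ω c = z := by
  have h1 : IsIntegral k z := IsIntegral.of_pow hm (by rw [hz]; exact isIntegral_one)
  have h2 := IsAlgClosed.degree_eq_one_of_irreducible k (minpoly.irreducible h1)
  exact minpoly.mem_range_of_degree_eq_one k z h2

theorem pf_DVT : T_DVT.{u} := by
  intro k Ω _ _ _ _ _ _ O M p t hRs hkM htM ht0 hp hGd hmax hH m hpm
  have hm : 0 < m := Nat.pos_of_ne_zero fun h => hpm (h ▸ dvd_zero p)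
  haveI : CharZero Ω := charZero_of_injective_algebraMap (algebraMap k Ω).injective
  haveI : CharZero M := inferInstance
  obtain ⟨s, hs⟩ := IsAlgClosed.exists_pow_nat_eq t hm
  have hs0 : s ≠ 0 := by
    rintro rfl
    rw [zero_pow hm.ne'] at hs
    exact ht0 hs.symm
  have hsi : IsIntegral M s := by
    refine IsIntegral.of_pow hm ?_
    rw [hs]
    exact isIntegral_algebraMap (R := M) (x := (⟨t, htM⟩ : M))
  set L : IntermediateField M Ω := IntermediateField.adjoin M {s} with hL
  haveI : FiniteDimensional M L := IntermediateField.adjoin.finiteDimensional hsi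
  have hsL : s ∈ L := IntermediateField.mem_adjoin_simple_self M s
  set d := Module.finrank M L with hd
  have hd0 : 0 < d := Module.finrank_pos
  -- `s ^ d` lies in `M`
  have hsd : s ^ d ∈ M := by
    have h1 := Algebra.norm_eq_prod_embeddings M Ω (⟨s, hsL⟩ : L)
    have h2 : ∀ σ : L →ₐ[M] Ω, ∃ c : k, σ ⟨s, hsL⟩ = algebraMap k Ω c * s := by
      intro σ
      have h3 : (σ ⟨s, hsL⟩) ^ m = t := by
        have h4 : (⟨s, hsL⟩ : L) ^ m = algebraMap M L ⟨t, htM⟩ := by
          apply Subtype.ext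
          show s ^ m = t
          exact hs
        rw [← map_pow, h4, AlgHom.commutes]
        rfl
      have h5 : (σ ⟨s, hsL⟩ / s) ^ m = 1 := by
        rw [div_pow, h3, hs, div_self ht0]
      obtain ⟨c, hc⟩ := dvt_root (k := k) hm h5
      exact ⟨c, by rw [hc, div_mul_cancel₀ _ hs0]⟩
    choose c hc using h2
    rw [Finset.prod_congr rfl fun σ _ => hc σ, Finset.prod_mul_distrib, Finset.prod_const,
      Finset.card_univ, AlgHom.card] at h1
    have h6 : (∏ σ : L →ₐ[M] Ω, algebraMap k Ω (c σ)) ∈ M :=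
      Subfield.prod_mem M fun σ _ => hkM _
    have h7 : (∏ σ : L →ₐ[M] Ω, algebraMap k Ω (c σ)) ≠ 0 := by
      rw [Finset.prod_ne_zero_iff]
      intro σ _ h8
      have h9 := hc σ
      rw [h8, zero_mul] at h9
      have h10 : (⟨s, hsL⟩ : L) = 0 := (map_eq_zero σ).1 h9
      exact hs0 (congrArg Subtype.val h10)
    have h8 : s ^ d = (∏ σ : L →ₐ[M] Ω, algebraMap k Ω (c σ))⁻¹ *
        algebraMap M Ω (Algebra.norm M (⟨s, hsL⟩ : L)) := by
      rw [h1, ← mul_assoc, inv_mul_cancel₀ h7, one_mul]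
    rw [h8]
    exact M.mul_mem (M.inv_mem h6) (Subtype.property _)
  -- the degree divides `m`
  have hse : s ^ Nat.gcd d m ∈ M := by
    have h1 : (s ^ Nat.gcd d m : Ω) = (s ^ d) ^ (Nat.gcdA d m) * (s ^ m) ^ (Nat.gcdB d m) := by
      rw [← zpow_natCast, ← zpow_natCast, ← zpow_natCast, ← zpow_mul, ← zpow_mul,
        ← zpow_add₀ hs0, Nat.gcd_eq_gcd_ab]
    rw [h1]
    refine M.mul_mem (zpow_mem hsd _) (zpow_mem ?_ _)
    rw [hs]
    exact htM
  have hpd : ¬ p ∣ d := by
    intro hcon
    have he0 : 0 < Nat.gcd d m := Nat.gcd_pos_of_pos_left _ hd0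
    have h1 : (minpoly M s) ∣ Polynomial.X ^ (Nat.gcd d m) -
        Polynomial.C (⟨s ^ Nat.gcd d m, hse⟩ : M) := by
      refine minpoly.dvd M s ?_
      rw [map_sub, map_pow, Polynomial.aeval_X, Polynomial.aeval_C, sub_eq_zero]
      rfl
    have h2 := Polynomial.natDegree_le_of_dvd h1 (Polynomial.X_pow_sub_C_ne_zero he0 _)
    rw [Polynomial.natDegree_X_pow_sub_C] at h2
    have h3 : d = (minpoly M s).natDegree := IntermediateField.adjoin.finrank hsi
    rw [← h3] at h2
    have h4 : Nat.gcd d m = d := le_antisymm (Nat.le_of_dvd hd0 (Nat.gcd_dvd_left _ _)) h2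
    exact hpm (hcon.trans (h4 ▸ Nat.gcd_dvd_right d m))
  -- the value of `t` is not divisible by `p` in the extension
  have hML : M ≤ L.toSubfield := by
    intro x hx
    exact L.algebraMap_mem ⟨x, hx⟩
  have hGd' : Gd O p t L.toSubfield := by
    intro f hf h1
    have hf0 : f ≠ 0 := by
      rintro rfl
      rw [zero_pow hp.ne_zero, mul_zero, map_zero] at h1
      exact zero_ne_one h1
    have h2 := dvt_norm O M L hH ⟨f, hf⟩
    set g : Ω := algebraMap M Ω (Algebra.norm M (⟨f, hf⟩ : L)) with hg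
    have hgM : g ∈ M := Subtype.property _
    have hg0 : g ≠ 0 := by
      intro h3
      rw [h3, map_zero] at h2
      have h4 : O.valuation f = 0 := pow_eq_zero_iff hd0.ne' |>.1 h2.symm
      exact hf0 ((map_eq_zero _).1 h4)
    have h3 : O.valuation (t ^ d * g ^ p) = 1 := by
      have h4 : O.valuation (t ^ d * g ^ p) = (O.valuation (t * f ^ p)) ^ d := by
        rw [map_mul, map_pow, map_pow, h2, map_mul, map_pow, mul_pow, ← pow_mul, ← pow_mul,
          mul_comm p d]
      rw [h4, h1, one_pow]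
    have hcop : Nat.Coprime d p := ((Nat.Prime.coprime_iff_not_dvd hp).2 hpd).symm
    have h5 : (1 : ℤ) = d * Nat.gcdA d p + p * Nat.gcdB d p := by
      have h6 := Nat.gcd_eq_gcd_ab d p
      rwa [hcop.gcd_eq_one, Nat.cast_one] at h6
    set a := Nat.gcdA d p with ha
    set b := Nat.gcdB d p with hb
    have h6 : t * (g ^ a * t ^ (-b)) ^ p = (t ^ d * g ^ p) ^ a := by
      have h7 : (t : Ω) = t ^ ((d : ℤ) * a + p * b) := by rw [← h5, zpow_one]
      calc t * (g ^ a * t ^ (-b)) ^ p
          = t ^ ((d : ℤ) * a + p * b) * (g ^ a * t ^ (-b)) ^ p := by rw [← h7]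
        _ = (t ^ d * g ^ p) ^ a := by
            rw [mul_pow, mul_zpow, ← zpow_natCast (g ^ a), ← zpow_natCast (t ^ (-b)),
              ← zpow_natCast t d, ← zpow_natCast g p, ← zpow_mul, ← zpow_mul, ← zpow_mul,
              ← zpow_mul, zpow_add₀ ht0]
            have h8 : t ^ ((p : ℤ) * b) * t ^ (-b * (p : ℤ)) = 1 := by
              rw [← zpow_add₀ ht0, show (p : ℤ) * b + -b * p = 0 by ring, zpow_zero]
            calc t ^ ((d : ℤ) * a) * t ^ ((p : ℤ) * b) * (g ^ (a * (p : ℤ)) * t ^ (-b * (p : ℤ)))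
                = t ^ ((d : ℤ) * a) * g ^ (a * (p : ℤ)) *
                  (t ^ ((p : ℤ) * b) * t ^ (-b * (p : ℤ))) := by ring
              _ = t ^ ((d : ℤ) * a) * g ^ ((p : ℤ) * a) := by rw [h8, mul_one, mul_comm a]
    refine hGd (g ^ a * t ^ (-b)) (M.mul_mem (zpow_mem hgM _) (zpow_mem htM _)) ?_
    rw [h6, map_zpow₀, h3, one_zpow]
  have hfin := hmax L.toSubfield hML hGd'
  refine ⟨s, ?_, hs⟩
  rw [← hfin]
  exact hsL

end Pool.Agent.H46.IX
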