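import Pool.Agent.H15.IX.TC

/-!
# idx_modules, row NPU: the theorem of Newton and Puiseux, universe polymorphic

Copy of Pool/Agent/H68/VZ/HFC.lean (helper68) and Pool/Agent/H97/VZ/NPX.lean (helper97).
-/

set_option autoImplicit false

open Finset Pool.Agent.H15.IX

namespace Pool.Agent.H46.IX

universe u

/-- lifting of a factorization (universe polymorphic copy of `Pool.Agent.H18.VZ.T_HFC`) -/
def L_HFC : Prop := ∀ (κ : Type u) [Field κ] (Q : Polynomial (PowerSeries κ))
  (A B : Polynomial κ), Q.Monic → A.Monic → B.Monic → IsCoprime A B →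
  Q.map PowerSeries.constantCoeff = A * B →
  ∃ A' B' : Polynomial (PowerSeries κ), A'.Monic ∧ B'.Monic ∧
    A'.map PowerSeries.constantCoeff = A ∧ B'.map PowerSeries.constantCoeff = B ∧ Q = A' * B'

namespace NPUa

variable {κ : Type u} [Field κ]

/-- exchange of the variable and the power series variable -/
noncomputable def Th : Polynomial (PowerSeries κ) →+* PowerSeries (Polynomial κ) :=
  Polynomial.eval₂RingHom (PowerSeries.map (Polynomial.C (R := κ)))
    (PowerSeries.C (R := Polynomial κ) Polynomial.X)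

lemma th_coeff (P : Polynomial (PowerSeries κ)) (m i : ℕ) :
    (PowerSeries.coeff m (Th P)).coeff i = PowerSeries.coeff m (P.coeff i) := by
  induction P using Polynomial.induction_on' with
  | add p q hp hq =>
    rw [map_add, map_add, Polynomial.coeff_add, hp, hq, Polynomial.coeff_add, map_add]
  | monomial n f =>
    have h1 : Th (Polynomial.monomial n f) =
        PowerSeries.map (Polynomial.C (R := κ)) f * PowerSeries.C (Polynomial.X ^ n) := by
      unfold Th
      rw [Polynomial.coe_eval₂RingHom, Polynomial.eval₂_monomial, map_pow]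
    rw [h1, PowerSeries.coeff_mul_C, PowerSeries.coeff_map, Polynomial.coeff_C_mul,
      Polynomial.coeff_X_pow, Polynomial.coeff_monomial]
    by_cases h : i = n
    · rw [if_pos h, if_pos h.symm, mul_one]
    · rw [if_neg h, if_neg (Ne.symm h), mul_zero, map_zero]

lemma th_inj {P P' : Polynomial (PowerSeries κ)} (h : Th P = Th P') : P = P' := by
  ext i m
  rw [← th_coeff, ← th_coeff, h]

/-- one step of the lifting -/
lemma step (A B R : Polynomial κ) (hA : A.Monic) (hB : B.Monic) (hAB : IsCoprime A B)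
    (hR : R.degree < ((A.natDegree + B.natDegree : ℕ) : WithBot ℕ)) :
    ∃ u w : Polynomial κ, u * B + A * w = R ∧ u.degree < (A.natDegree : WithBot ℕ) ∧
      w.degree < (B.natDegree : WithBot ℕ) := by
  obtain ⟨x, y, hxy⟩ := hAB
  have hdA : A.degree = (A.natDegree : WithBot ℕ) := Polynomial.degree_eq_natDegree hA.ne_zero
  have hdB : B.degree = (B.natDegree : WithBot ℕ) := Polynomial.degree_eq_natDegree hB.ne_zero
  obtain ⟨u, hu⟩ : ∃ u, u = (R * y) %ₘ A := ⟨_, rfl⟩
  obtain ⟨q, hq⟩ : ∃ q, q = (R * y) /ₘ A := ⟨_, rfl⟩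
  have hdiv : u + A * q = R * y := by
    rw [hu, hq]; exact Polynomial.modByMonic_add_div _ _
  have hud : u.degree < (A.natDegree : WithBot ℕ) := by
    rw [← hdA, hu]; exact Polynomial.degree_modByMonic_lt _ hA
  have heq : u * B + A * (R * x + q * B) = R := by
    calc u * B + A * (R * x + q * B) = R * (x * A) + (u + A * q) * B := by ring
      _ = R * (x * A + y * B) := by rw [hdiv]; ring
      _ = R := by rw [hxy, mul_one]
  refine ⟨u, R * x + q * B, heq, hud, ?_⟩
  obtain ⟨w, hw⟩ : ∃ w, w = R * x + q * B := ⟨_, rfl⟩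
  rw [← hw] at heq ⊢
  have h1 : A * w = R - u * B := by rw [← heq]; ring
  have h2 : (u * B).degree < ((A.natDegree + B.natDegree : ℕ) : WithBot ℕ) := by
    by_cases hu0 : u = 0
    · rw [hu0, zero_mul, Polynomial.degree_zero]; exact WithBot.bot_lt_coe _
    · rw [Polynomial.degree_mul, hdB]
      rw [Polynomial.degree_eq_natDegree hu0] at hud ⊢
      have h3 : u.natDegree < A.natDegree := by exact_mod_cast hud
      have h4 : u.natDegree + B.natDegree < A.natDegree + B.natDegree := by omega
      exact_mod_cast h4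
  have h5 : (A * w).degree < ((A.natDegree + B.natDegree : ℕ) : WithBot ℕ) := by
    rw [h1]
    exact lt_of_le_of_lt (Polynomial.degree_sub_le _ _) (max_lt hR h2)
  by_cases hw0 : w = 0
  · rw [hw0, Polynomial.degree_zero]; exact WithBot.bot_lt_coe _
  · rw [Polynomial.degree_mul, hdA, Polynomial.degree_eq_natDegree hw0] at h5
    rw [Polynomial.degree_eq_natDegree hw0]
    have h6 : A.natDegree + w.natDegree < A.natDegree + B.natDegree := by exact_mod_cast h5
    have h7 : w.natDegree < B.natDegree := by omega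
    exact_mod_cast h7

/-- the invariant of the successive approximation -/
structure Inv (A B : Polynomial κ) (Qs : PowerSeries (Polynomial κ)) (m : ℕ)
    (p : PowerSeries (Polynomial κ) × PowerSeries (Polynomial κ)) : Prop where
  eq : ∀ k ≤ m, PowerSeries.coeff k (p.1 * p.2) = PowerSeries.coeff k Qs
  zl : PowerSeries.coeff 0 p.1 = A
  zr : PowerSeries.coeff 0 p.2 = B
  dl : ∀ k, 1 ≤ k → (PowerSeries.coeff k p.1).degree < (A.natDegree : WithBot ℕ)
  dr : ∀ k, 1 ≤ k → (PowerSeries.coeff k p.2).degree < (B.natDegree : WithBot ℕ)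

lemma deg_mul_lt {p q : Polynomial κ} {a b : ℕ} (hp : p.degree < (a : WithBot ℕ))
    (hq : q.degree ≤ (b : WithBot ℕ)) : (p * q).degree < ((a + b : ℕ) : WithBot ℕ) := by
  by_cases hp0 : p = 0
  · rw [hp0, zero_mul, Polynomial.degree_zero]; exact WithBot.bot_lt_coe _
  by_cases hq0 : q = 0
  · rw [hq0, mul_zero, Polynomial.degree_zero]; exact WithBot.bot_lt_coe _
  rw [Polynomial.degree_mul, Polynomial.degree_eq_natDegree hp0,
    Polynomial.degree_eq_natDegree hq0]
  rw [Polynomial.degree_eq_natDegree hp0] at hp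
  rw [Polynomial.degree_eq_natDegree hq0] at hq
  have h1 : p.natDegree < a := by exact_mod_cast hp
  have h2 : q.natDegree ≤ b := by exact_mod_cast hq
  have h3 : p.natDegree + q.natDegree < a + b := by omega
  exact_mod_cast h3

lemma deg_add_lt {p q : Polynomial κ} {a : ℕ} (hp : p.degree < (a : WithBot ℕ))
    (hq : q.degree < (a : WithBot ℕ)) : (p + q).degree < (a : WithBot ℕ) :=
  lt_of_le_of_lt (Polynomial.degree_add_le _ _) (max_lt hp hq)

lemma next (A B : Polynomial κ) (Qs : PowerSeries (Polynomial κ)) (hA : A.Monic) (hB : B.Monic)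
    (hAB : IsCoprime A B)
    (hQ : ∀ k, 1 ≤ k →
      (PowerSeries.coeff k Qs).degree < ((A.natDegree + B.natDegree : ℕ) : WithBot ℕ))
    (m : ℕ) (p : PowerSeries (Polynomial κ) × PowerSeries (Polynomial κ))
    (hp : Inv A B Qs m p) :
    ∃ p' : PowerSeries (Polynomial κ) × PowerSeries (Polynomial κ), Inv A B Qs (m + 1) p' ∧
      ∀ k ≤ m, PowerSeries.coeff k p'.1 = PowerSeries.coeff k p.1 ∧
        PowerSeries.coeff k p'.2 = PowerSeries.coeff k p.2 := by
  obtain ⟨U, W⟩ := p
  have hzl : PowerSeries.coeff 0 U = A := hp.zl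
  have hzr : PowerSeries.coeff 0 W = B := hp.zr
  have hdl : ∀ k, 1 ≤ k → (PowerSeries.coeff k U).degree < (A.natDegree : WithBot ℕ) := hp.dl
  have hdr : ∀ k, 1 ≤ k → (PowerSeries.coeff k W).degree < (B.natDegree : WithBot ℕ) := hp.dr
  have heq : ∀ k ≤ m, PowerSeries.coeff k (U * W) = PowerSeries.coeff k Qs := hp.eq
  have hlU : ∀ k, (PowerSeries.coeff k U).degree ≤ (A.natDegree : WithBot ℕ) := by
    intro k
    rcases Nat.eq_zero_or_pos k with rfl | hk
    · rw [hzl]; exact Polynomial.degree_le_natDegree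
    · exact (hdl k hk).le
  have hprod : (PowerSeries.coeff (m + 1) (U * W)).degree <
      ((A.natDegree + B.natDegree : ℕ) : WithBot ℕ) := by
    rw [PowerSeries.coeff_mul]
    refine lt_of_le_of_lt (Polynomial.degree_sum_le _ _) ?_
    rw [Finset.sup_lt_iff (WithBot.bot_lt_coe _)]
    rintro ⟨i, j⟩ hij
    rw [Finset.HasAntidiagonal.mem_antidiagonal] at hij
    rcases Nat.eq_zero_or_pos j with hj | hj
    · have hi : 1 ≤ i := by
        have : i + j = m + 1 := hij
        omega
      show (PowerSeries.coeff i U * PowerSeries.coeff j W).degree < _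
      rw [hj, hzr]
      exact deg_mul_lt (hdl i hi) Polynomial.degree_le_natDegree
    · show (PowerSeries.coeff i U * PowerSeries.coeff j W).degree < _
      rw [mul_comm, add_comm A.natDegree]
      exact deg_mul_lt (hdr j hj) (hlU i)
  obtain ⟨u, w, huw, hu, hw⟩ := step A B
    (PowerSeries.coeff (m + 1) Qs - PowerSeries.coeff (m + 1) (U * W)) hA hB hAB
    (lt_of_le_of_lt (Polynomial.degree_sub_le _ _) (max_lt (hQ _ (by omega)) hprod))
  have hcl : ∀ (Y : PowerSeries (Polynomial κ)) (v : Polynomial κ) (k : ℕ),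
      PowerSeries.coeff k (Y + PowerSeries.X ^ (m + 1) * PowerSeries.C v) =
        PowerSeries.coeff k Y + if k = m + 1 then v else 0 := by
    intro Y v k
    rw [map_add, PowerSeries.coeff_X_pow_mul']
    congr 1
    by_cases h : m + 1 ≤ k
    · rw [if_pos h, PowerSeries.coeff_C]
      by_cases h' : k = m + 1
      · rw [if_pos h', if_pos (by omega)]
      · rw [if_neg h', if_neg (by omega)]
    · rw [if_neg h, if_neg (by omega)]
  have hmul : (U + PowerSeries.X ^ (m + 1) * PowerSeries.C u) *
      (W + PowerSeries.X ^ (m + 1) * PowerSeries.C w) =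
      U * W + PowerSeries.X ^ (m + 1) * (PowerSeries.C u * W + U * PowerSeries.C w +
        PowerSeries.X * (PowerSeries.X ^ m * (PowerSeries.C u * PowerSeries.C w))) := by
    ring
  refine ⟨(U + PowerSeries.X ^ (m + 1) * PowerSeries.C u,
    W + PowerSeries.X ^ (m + 1) * PowerSeries.C w), ⟨?_, ?_, ?_, ?_, ?_⟩, ?_⟩
  · intro k hk
    show PowerSeries.coeff k ((U + PowerSeries.X ^ (m + 1) * PowerSeries.C u) *
      (W + PowerSeries.X ^ (m + 1) * PowerSeries.C w)) = _
    rw [hmul, map_add, PowerSeries.coeff_X_pow_mul']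
    by_cases h : m + 1 ≤ k
    · have hk' : k = m + 1 := le_antisymm hk h
      rw [if_pos h, hk', Nat.sub_self, map_add, map_add, PowerSeries.coeff_zero_X_mul, add_zero,
        PowerSeries.coeff_C_mul, PowerSeries.coeff_mul_C, hzl, hzr, huw]
      ring
    · rw [if_neg h, add_zero]
      exact heq k (by omega)
  · show PowerSeries.coeff 0 (U + PowerSeries.X ^ (m + 1) * PowerSeries.C u) = A
    rw [hcl, if_neg (by omega), add_zero, hzl]
  · show PowerSeries.coeff 0 (W + PowerSeries.X ^ (m + 1) * PowerSeries.C w) = B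
    rw [hcl, if_neg (by omega), add_zero, hzr]
  · intro k hk
    show (PowerSeries.coeff k (U + PowerSeries.X ^ (m + 1) * PowerSeries.C u)).degree < _
    rw [hcl]
    refine deg_add_lt (hdl k hk) ?_
    by_cases h : k = m + 1
    · rw [if_pos h]; exact hu
    · rw [if_neg h, Polynomial.degree_zero]; exact WithBot.bot_lt_coe _
  · intro k hk
    show (PowerSeries.coeff k (W + PowerSeries.X ^ (m + 1) * PowerSeries.C w)).degree < _
    rw [hcl]
    refine deg_add_lt (hdr k hk) ?_
    by_cases h : k = m + 1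
    · rw [if_pos h]; exact hw
    · rw [if_neg h, Polynomial.degree_zero]; exact WithBot.bot_lt_coe _
  · intro k hk
    refine ⟨?_, ?_⟩
    · show PowerSeries.coeff k (U + PowerSeries.X ^ (m + 1) * PowerSeries.C u) = _
      rw [hcl, if_neg (by omega), add_zero]
    · show PowerSeries.coeff k (W + PowerSeries.X ^ (m + 1) * PowerSeries.C w) = _
      rw [hcl, if_neg (by omega), add_zero]

/-- the limit of the successive approximation -/
lemma limit (A B : Polynomial κ) (Qs : PowerSeries (Polynomial κ)) (hA : A.Monic) (hB : B.Monic)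
    (hAB : IsCoprime A B) (h0 : PowerSeries.coeff 0 Qs = A * B)
    (hQ : ∀ k, 1 ≤ k →
      (PowerSeries.coeff k Qs).degree < ((A.natDegree + B.natDegree : ℕ) : WithBot ℕ)) :
    ∃ U W : PowerSeries (Polynomial κ), U * W = Qs ∧ PowerSeries.coeff 0 U = A ∧
      PowerSeries.coeff 0 W = B ∧
      (∀ k, 1 ≤ k → (PowerSeries.coeff k U).degree < (A.natDegree : WithBot ℕ)) ∧
      ∀ k, 1 ≤ k → (PowerSeries.coeff k W).degree < (B.natDegree : WithBot ℕ) := by
  have hstart : Inv A B Qs 0 (PowerSeries.C A, PowerSeries.C B) := by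
    refine ⟨?_, ?_, ?_, ?_, ?_⟩
    · intro k hk
      have hk0 : k = 0 := by omega
      rw [hk0, h0]
      show PowerSeries.coeff 0 (PowerSeries.C A * PowerSeries.C B) = A * B
      rw [← map_mul, PowerSeries.coeff_zero_C]
    · exact PowerSeries.coeff_zero_C A
    · exact PowerSeries.coeff_zero_C B
    · intro k hk
      show (PowerSeries.coeff k (PowerSeries.C A)).degree < _
      rw [PowerSeries.coeff_C, if_neg (by omega), Polynomial.degree_zero]
      exact WithBot.bot_lt_coe _
    · intro k hk
      show (PowerSeries.coeff k (PowerSeries.C B)).degree < _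
      rw [PowerSeries.coeff_C, if_neg (by omega), Polynomial.degree_zero]
      exact WithBot.bot_lt_coe _
  choose nx hnx1 hnx2 using next A B Qs hA hB hAB hQ
  let st : (m : ℕ) → {p : PowerSeries (Polynomial κ) × PowerSeries (Polynomial κ) //
      Inv A B Qs m p} := fun m => Nat.rec ⟨_, hstart⟩ (fun m p => ⟨nx m p.1 p.2, hnx1 m p.1 p.2⟩) m
  have hst : ∀ m k, k ≤ m → PowerSeries.coeff k (st (m + 1)).1.1 = PowerSeries.coeff k (st m).1.1 ∧
      PowerSeries.coeff k (st (m + 1)).1.2 = PowerSeries.coeff k (st m).1.2 :=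
    fun m k hk => hnx2 m (st m).1 (st m).2 k hk
  have hst2 : ∀ k d, PowerSeries.coeff k (st (k + d)).1.1 = PowerSeries.coeff k (st k).1.1 ∧
      PowerSeries.coeff k (st (k + d)).1.2 = PowerSeries.coeff k (st k).1.2 := by
    intro k d
    induction d with
    | zero => exact ⟨rfl, rfl⟩
    | succ d ih =>
      have h := hst (k + d) k (by omega)
      exact ⟨h.1.trans ih.1, h.2.trans ih.2⟩
  refine ⟨PowerSeries.mk fun m => PowerSeries.coeff m (st m).1.1,
    PowerSeries.mk fun m => PowerSeries.coeff m (st m).1.2, ?_, ?_, ?_, ?_, ?_⟩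
  · ext1 m
    rw [← (st m).2.eq m le_rfl, PowerSeries.coeff_mul, PowerSeries.coeff_mul]
    refine Finset.sum_congr rfl ?_
    rintro ⟨i, j⟩ hij
    rw [Finset.HasAntidiagonal.mem_antidiagonal] at hij
    have hij' : i + j = m := hij
    show PowerSeries.coeff i (PowerSeries.mk fun m => PowerSeries.coeff m (st m).1.1) *
      PowerSeries.coeff j (PowerSeries.mk fun m => PowerSeries.coeff m (st m).1.2) =
      PowerSeries.coeff i (st m).1.1 * PowerSeries.coeff j (st m).1.2
    rw [PowerSeries.coeff_mk, PowerSeries.coeff_mk, ← (hst2 i j).1, ← (hst2 j i).2, hij',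
      add_comm j i, hij']
  · rw [PowerSeries.coeff_mk]; exact (st 0).2.zl
  · rw [PowerSeries.coeff_mk]; exact (st 0).2.zr
  · intro k hk
    rw [PowerSeries.coeff_mk]; exact (st k).2.dl k hk
  · intro k hk
    rw [PowerSeries.coeff_mk]; exact (st k).2.dr k hk

/-- back to polynomials over power series -/
lemma back (A : Polynomial κ) (hA : A.Monic) (U : PowerSeries (Polynomial κ))
    (h0 : PowerSeries.coeff 0 U = A)
    (hd : ∀ k, 1 ≤ k → (PowerSeries.coeff k U).degree < (A.natDegree : WithBot ℕ)) :
    ∃ A' : Polynomial (PowerSeries κ), A'.Monic ∧ A'.map PowerSeries.constantCoeff = A ∧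
      Th A' = U := by
  obtain ⟨A', hA'⟩ : ∃ A' : Polynomial (PowerSeries κ), A' =
      ∑ i ∈ Finset.range (A.natDegree + 1),
        Polynomial.monomial i (PowerSeries.mk fun m => (PowerSeries.coeff m U).coeff i) :=
    ⟨_, rfl⟩
  have hle : ∀ m i, A.natDegree < i → (PowerSeries.coeff m U).coeff i = 0 := by
    intro m i hi
    rcases Nat.eq_zero_or_pos m with rfl | hm
    · rw [h0]; exact Polynomial.coeff_eq_zero_of_natDegree_lt hi
    · apply Polynomial.coeff_eq_zero_of_degree_lt
      refine lt_trans (hd m hm) ?_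
      exact_mod_cast hi
  have hco : ∀ i, A'.coeff i = PowerSeries.mk fun m => (PowerSeries.coeff m U).coeff i := by
    intro i
    rw [hA', Polynomial.finsetSum_coeff]
    by_cases hi : i ∈ Finset.range (A.natDegree + 1)
    · rw [Finset.sum_eq_single i]
      · rw [Polynomial.coeff_monomial, if_pos rfl]
      · intro j _ hj
        rw [Polynomial.coeff_monomial, if_neg hj]
      · intro h; exact absurd hi h
    · rw [Finset.sum_eq_zero]
      · ext m
        rw [PowerSeries.coeff_mk, map_zero, hle]
        rw [Finset.mem_range] at hi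
        omega
      · intro j hj
        rw [Polynomial.coeff_monomial, if_neg]
        rintro rfl
        exact hi hj
  refine ⟨A', ?_, ?_, ?_⟩
  · apply Polynomial.monic_of_natDegree_le_of_coeff_eq_one A.natDegree
    · rw [Polynomial.natDegree_le_iff_coeff_eq_zero]
      intro i hi
      rw [hco]
      ext m
      rw [PowerSeries.coeff_mk, map_zero, hle m i hi]
    · rw [hco]
      ext m
      rw [PowerSeries.coeff_mk, PowerSeries.coeff_one]
      rcases Nat.eq_zero_or_pos m with rfl | hm
      · rw [h0, if_pos rfl]; exact hA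
      · rw [if_neg (by omega)]
        exact Polynomial.coeff_eq_zero_of_degree_lt (hd m hm)
  · ext i
    rw [Polynomial.coeff_map, hco, ← PowerSeries.coeff_zero_eq_constantCoeff_apply,
      PowerSeries.coeff_mk, h0]
  · ext m i
    rw [th_coeff, hco, PowerSeries.coeff_mk]

end NPUa

open NPUa in
theorem npu_HFC : L_HFC.{u} := by
  intro κ _ Q A B hQm hA hB hAB hQ
  have hnd : Q.natDegree = A.natDegree + B.natDegree := by
    rw [← hQm.natDegree_map (PowerSeries.constantCoeff (R := κ)), hQ,
      hA.natDegree_mul hB]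
  have h0 : PowerSeries.coeff 0 (Th Q) = A * B := by
    rw [← hQ]
    ext i
    rw [th_coeff, Polynomial.coeff_map, PowerSeries.coeff_zero_eq_constantCoeff_apply]
  have hd : ∀ k, 1 ≤ k → (PowerSeries.coeff k (Th Q)).degree <
      ((A.natDegree + B.natDegree : ℕ) : WithBot ℕ) := by
    intro k hk
    rw [Polynomial.degree_lt_iff_coeff_zero]
    intro i hi
    rw [th_coeff]
    rcases Nat.lt_or_eq_of_le hi with h | h
    · rw [Polynomial.coeff_eq_zero_of_natDegree_lt (by rw [hnd]; exact h), map_zero]
    · rw [← h, ← hnd, hQm.coeff_natDegree, PowerSeries.coeff_one, if_neg (by omega)]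
  obtain ⟨U, W, hUW, hU0, hW0, hUd, hWd⟩ := limit A B (Th Q) hA hB hAB h0 hd
  obtain ⟨A', hA'1, hA'2, hA'3⟩ := back A hA U hU0 hUd
  obtain ⟨B', hB'1, hB'2, hB'3⟩ := back B hB W hW0 hWd
  refine ⟨A', B', hA'1, hB'1, hA'2, hB'2, th_inj ?_⟩
  rw [map_mul, hA'3, hB'3, hUW]


namespace NPUb

section
variable {κ : Type u} [Field κ]

/-- the substitution `X ↦ X ^ m` -/
noncomputable def E (m : ℕ) (hm : m ≠ 0) : PowerSeries κ →+* PowerSeries κ :=
  (PowerSeries.expand m hm).toRingHom

theorem E_apply (m : ℕ) (hm : m ≠ 0) (a : PowerSeries κ) :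
    E m hm a = PowerSeries.expand m hm a := rfl

theorem E_congr {m m' : ℕ} (hm : m ≠ 0) (hm' : m' ≠ 0) (h : m = m') :
    (E m hm : PowerSeries κ →+* PowerSeries κ) = E m' hm' := by
  subst h
  rfl

theorem E_comp (m n : ℕ) (hm : m ≠ 0) (hn : n ≠ 0) :
    ((E m hm).comp (E n hn) : PowerSeries κ →+* PowerSeries κ) =
      E (m * n) (Nat.mul_ne_zero hm hn) := by
  ext1 a
  rw [RingHom.comp_apply, E_apply, E_apply, E_apply, PowerSeries.expand_mul m hm n hn]

theorem E_zero {m : ℕ} {hm : m ≠ 0} {c : PowerSeries κ} (h : E m hm c = 0) : c = 0 := by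
  ext n
  have h1 := PowerSeries.coeff_expand_mul m hm c n
  rw [← E_apply, h, map_zero] at h1
  rw [← h1, map_zero]

/-- split polynomials -/
def Spl (Q : Polynomial (PowerSeries κ)) : Prop :=
  ∃ S : Multiset (PowerSeries κ), Q = (S.map (fun a => Polynomial.X - Polynomial.C a)).prod

/-- polynomials which split after an extension -/
def Good (Q : Polynomial (PowerSeries κ)) : Prop :=
  ∃ (m : ℕ) (hm : m ≠ 0), Spl (Q.map (E m hm))

theorem spl_map (f : PowerSeries κ →+* PowerSeries κ) {Q : Polynomial (PowerSeries κ)}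
    (h : Spl Q) : Spl (Q.map f) := by
  obtain ⟨S, rfl⟩ := h
  refine ⟨S.map f, ?_⟩
  rw [Polynomial.map_multiset_prod, Multiset.map_map, Multiset.map_map]
  congr 1
  refine Multiset.map_congr rfl fun a _ => ?_
  simp

theorem spl_mul {P Q : Polynomial (PowerSeries κ)} (hP : Spl P) (hQ : Spl Q) : Spl (P * Q) := by
  obtain ⟨S, rfl⟩ := hP
  obtain ⟨T, rfl⟩ := hQ
  exact ⟨S + T, by rw [Multiset.map_add, Multiset.prod_add]⟩

theorem good_of_map {Q : Polynomial (PowerSeries κ)} {q : ℕ} {hq : q ≠ 0}
    (h : Good (Q.map (E q hq))) : Good Q := by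
  obtain ⟨m, hm, h⟩ := h
  refine ⟨m * q, Nat.mul_ne_zero hm hq, ?_⟩
  rw [← E_comp m q hm hq, ← Polynomial.map_map]
  exact h

theorem good_mul {P Q : Polynomial (PowerSeries κ)} (hP : Good P) (hQ : Good Q) :
    Good (P * Q) := by
  obtain ⟨m, hm, hP⟩ := hP
  obtain ⟨n, hn, hQ⟩ := hQ
  refine ⟨m * n, Nat.mul_ne_zero hm hn, ?_⟩
  rw [Polynomial.map_mul]
  refine spl_mul ?_ ?_
  · rw [E_congr (Nat.mul_ne_zero hm hn) (Nat.mul_ne_zero hn hm) (Nat.mul_comm m n),
      ← E_comp n m hn hm, ← Polynomial.map_map]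
    exact spl_map _ hP
  · rw [← E_comp m n hm hn, ← Polynomial.map_map]
    exact spl_map _ hQ

theorem scale_prod (t : PowerSeries κ) (S : Multiset (PowerSeries κ)) :
    ((S.map (fun a => Polynomial.X - Polynomial.C a)).prod).scaleRoots t =
      ((S.map (fun a => a * t)).map (fun a => Polynomial.X - Polynomial.C a)).prod := by
  induction S using Multiset.induction_on with
  | empty => simp
  | cons a S ih =>
    rw [Multiset.map_cons, Multiset.prod_cons, Polynomial.mul_scaleRoots_of_noZeroDivisors, ih,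
      Polynomial.X_sub_C_scaleRoots, Multiset.map_cons, Multiset.map_cons, Multiset.prod_cons]

theorem good_scale {Q : Polynomial (PowerSeries κ)} (hQ : Q.Monic) (t : PowerSeries κ)
    (h : Good Q) : Good (Q.scaleRoots t) := by
  obtain ⟨m, hm, S, h⟩ := h
  refine ⟨m, hm, S.map (fun a => a * E m hm t), ?_⟩
  rw [Polynomial.map_scaleRoots _ _ _ (by rw [hQ.leadingCoeff, map_one]; exact one_ne_zero), h,
    scale_prod]

theorem taylor_prod (t : PowerSeries κ) (S : Multiset (PowerSeries κ)) :
    Polynomial.taylor t ((S.map (fun a => Polynomial.X - Polynomial.C a)).prod) =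
      ((S.map (fun a => a - t)).map (fun a => Polynomial.X - Polynomial.C a)).prod := by
  induction S using Multiset.induction_on with
  | empty => simp
  | cons a S ih =>
    rw [Multiset.map_cons, Multiset.prod_cons, Polynomial.taylor_mul, ih, Multiset.map_cons,
      Multiset.map_cons, Multiset.prod_cons, map_sub, Polynomial.taylor_X, Polynomial.taylor_C,
      Polynomial.C_sub]
    congr 1
    ring

theorem good_taylor {Q : Polynomial (PowerSeries κ)} (t : PowerSeries κ)
    (h : Good (Polynomial.taylor t Q)) : Good Q := by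
  obtain ⟨m, hm, S, h⟩ := h
  refine ⟨m, hm, S.map (fun a => a - (-E m hm t)), ?_⟩
  rw [← taylor_prod, ← h, Polynomial.map_taylor, Polynomial.taylor_taylor, neg_add_cancel,
    Polynomial.taylor_zero]

theorem good_X_pow (n : ℕ) : Good (Polynomial.X ^ n : Polynomial (PowerSeries κ)) := by
  refine ⟨1, one_ne_zero, Multiset.replicate n 0, ?_⟩
  simp

/-- the second coefficient can be removed -/
theorem shift_coeff [CharZero κ] {Q : Polynomial (PowerSeries κ)} {n : ℕ} (hQ : Q.Monic)
    (hn : Q.natDegree = n + 1) :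
    ∃ t : PowerSeries κ, (Polynomial.taylor t Q).coeff n = 0 := by
  refine ⟨-(PowerSeries.C (((n : κ) + 1)⁻¹) * Q.coeff n), ?_⟩
  rw [Polynomial.taylor_coeff, Polynomial.eval_eq_sum_range' (n := 2)]
  · rw [Finset.sum_range_succ, Finset.sum_range_one, Polynomial.hasseDeriv_coeff,
      Polynomial.hasseDeriv_coeff, zero_add, Nat.choose_self, add_comm 1 n,
      Nat.choose_succ_self_right, ← hn]
    have h1 : Q.coeff Q.natDegree = 1 := hQ
    rw [h1, hn]
    have h2 : ((n + 1 : ℕ) : PowerSeries κ) * PowerSeries.C (((n : κ) + 1)⁻¹) = 1 := by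
      have h3 : ((n + 1 : ℕ) : PowerSeries κ) = PowerSeries.C ((n : κ) + 1) := by
        push_cast
        rw [map_add, map_natCast, map_one]
      rw [h3, ← map_mul, mul_inv_cancel₀, map_one]
      exact_mod_cast Nat.succ_ne_zero n
    calc ((1 : ℕ) : PowerSeries κ) * Q.coeff n * (-(PowerSeries.C (((n : κ) + 1)⁻¹) *
          Q.coeff n)) ^ 0 + ((n + 1 : ℕ) : PowerSeries κ) * 1 *
          (-(PowerSeries.C (((n : κ) + 1)⁻¹) * Q.coeff n)) ^ 1
        = Q.coeff n - (((n + 1 : ℕ) : PowerSeries κ) * PowerSeries.C (((n : κ) + 1)⁻¹)) *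
          Q.coeff n := by push_cast; ring
      _ = 0 := by rw [h2]; ring
  · refine lt_of_le_of_lt (Polynomial.natDegree_hasseDeriv_le _ _) ?_
    rw [hn]
    omega

/-- the choice of the slope -/
theorem slope {Q : Polynomial (PowerSeries κ)} {n : ℕ} (h : ∃ i < n, Q.coeff i ≠ 0) :
    ∃ i₀ < n, ∃ p : ℕ, PowerSeries.coeff p (Q.coeff i₀) ≠ 0 ∧
      ∀ i < n, ∀ j, j * (n - i₀) < p * (n - i) → PowerSeries.coeff j (Q.coeff i) = 0 := by
  classical
  obtain ⟨i₁, hi₁, h₁⟩ := h
  obtain ⟨i₀, hi₀, hmin⟩ := Finset.exists_min_image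
    ((Finset.range n).filter (fun i => Q.coeff i ≠ 0))
    (fun i => ((Q.coeff i).order.toNat : ℚ) / ((n - i : ℕ) : ℚ))
    ⟨i₁, Finset.mem_filter.2 ⟨Finset.mem_range.2 hi₁, h₁⟩⟩
  rw [Finset.mem_filter, Finset.mem_range] at hi₀
  refine ⟨i₀, hi₀.1, (Q.coeff i₀).order.toNat, PowerSeries.coeff_order hi₀.2, ?_⟩
  intro i hi j hj
  by_cases hq : Q.coeff i = 0
  · rw [hq, map_zero]
  · have h2 := hmin i (Finset.mem_filter.2 ⟨Finset.mem_range.2 hi, hq⟩)
    have h3 : (0 : ℚ) < ((n - i : ℕ) : ℚ) := by
      have : 0 < n - i := by omega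
      exact_mod_cast this
    have h4 : (0 : ℚ) < ((n - i₀ : ℕ) : ℚ) := by
      have : 0 < n - i₀ := by omega
      exact_mod_cast this
    rw [div_le_div_iff₀ h4 h3] at h2
    have h5 : (Q.coeff i₀).order.toNat * (n - i) ≤ (Q.coeff i).order.toNat * (n - i₀) := by
      exact_mod_cast h2
    refine PowerSeries.coeff_of_lt_order_toNat _ ?_
    exact lt_of_mul_lt_mul_right (lt_of_lt_of_le hj h5) (Nat.zero_le _)

/-- the inductive step -/
theorem step (hHFC : L_HFC.{u}) [IsAlgClosed κ] [CharZero κ] {n : ℕ}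
    (ih : ∀ Q : Polynomial (PowerSeries κ), Q.Monic → Q.natDegree < n + 1 → Good Q)
    {Q : Polynomial (PowerSeries κ)} (hQ : Q.Monic) (hn : Q.natDegree = n + 1)
    (h0 : Q.coeff n = 0) : Good Q := by
  classical
  have hlead : Q.coeff (n + 1) = 1 := by rw [← hn]; exact hQ
  by_cases hall : ∀ i < n + 1, Q.coeff i = 0
  · have : Q = Polynomial.X ^ (n + 1) := by
      ext1 i
      rw [Polynomial.coeff_X_pow]
      by_cases hi : i = n + 1
      · rw [if_pos hi, hi, hlead]
      · rw [if_neg hi]
        rcases lt_or_gt_of_ne hi with h | h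
        · exact hall i h
        · exact Polynomial.coeff_eq_zero_of_natDegree_lt (by omega)
    rw [this]
    exact good_X_pow _
  · push Not at hall
    obtain ⟨i₀, hi₀, p, hp, hmin⟩ := slope hall
    have hq : n + 1 - i₀ ≠ 0 := by omega
    have hb : ∀ i, ∃ b, E (n + 1 - i₀) hq (Q.coeff i) = PowerSeries.X ^ (p * (n + 1 - i)) * b := by
      intro i
      by_cases hi : i < n + 1
      · have hd : (PowerSeries.X : PowerSeries κ) ^ (p * (n + 1 - i)) ∣
            E (n + 1 - i₀) hq (Q.coeff i) := by
          rw [PowerSeries.X_pow_dvd_iff]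
          intro j hj
          rw [E_apply, PowerSeries.coeff_expand]
          split_ifs with hdvd
          · obtain ⟨k, rfl⟩ := hdvd
            rw [Nat.mul_div_cancel_left _ (Nat.pos_of_ne_zero hq)]
            exact hmin i hi k (by rw [mul_comm]; exact hj)
          · rfl
        exact hd
      · refine ⟨E (n + 1 - i₀) hq (Q.coeff i), ?_⟩
        have : n + 1 - i = 0 := by omega
        rw [this, mul_zero, pow_zero, one_mul]
    choose b hb using hb
    have hbn : b (n + 1) = 1 := by
      have := hb (n + 1)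
      rw [hlead, map_one, Nat.sub_self, mul_zero, pow_zero, one_mul] at this
      exact this.symm
    have hb1 : b n = 0 := by
      have := hb n
      rw [h0, map_zero] at this
      exact (mul_eq_zero.1 this.symm).resolve_left (pow_ne_zero _ PowerSeries.X_ne_zero)
    have hb0 : PowerSeries.constantCoeff (b i₀) ≠ 0 := by
      have h1 := congrArg (PowerSeries.coeff ((n + 1 - i₀) * p)) (hb i₀)
      rw [E_apply, PowerSeries.coeff_expand_mul, mul_comm p, PowerSeries.coeff_X_pow_mul',
        if_pos le_rfl, Nat.sub_self, PowerSeries.coeff_zero_eq_constantCoeff_apply] at h1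
      rw [← h1]
      exact hp
    set Q1 : Polynomial (PowerSeries κ) :=
      ∑ i ∈ Finset.range (n + 2), Polynomial.monomial i (b i) with hQ1
    have hc : ∀ i, Q1.coeff i = if i < n + 2 then b i else 0 := by
      intro i
      rw [hQ1, Polynomial.finsetSum_coeff]
      simp only [Polynomial.coeff_monomial]
      rw [Finset.sum_ite_eq' (Finset.range (n + 2)) i b]
      simp only [Finset.mem_range]
    have hdle : Q1.natDegree ≤ n + 1 := by
      rw [Polynomial.natDegree_le_iff_coeff_eq_zero]
      intro i hi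
      rw [hc, if_neg (by omega)]
    have hc1 : Q1.coeff (n + 1) = 1 := by
      rw [hc, if_pos (by omega), hbn]
    have hm1 : Q1.Monic := Polynomial.monic_of_natDegree_le_of_coeff_eq_one (n + 1) hdle hc1
    have hd1 : Q1.natDegree = n + 1 :=
      Polynomial.natDegree_eq_of_le_of_coeff_ne_zero hdle (by rw [hc1]; exact one_ne_zero)
    have hsc : Q.map (E (n + 1 - i₀) hq) = Q1.scaleRoots (PowerSeries.X ^ p) := by
      ext1 i
      rw [Polynomial.coeff_map, hb i, Polynomial.coeff_scaleRoots, hd1, hc, ← pow_mul]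
      split_ifs with hi
      · rw [mul_comm]
      · rw [← hb i, Polynomial.coeff_eq_zero_of_natDegree_lt (by omega), map_zero, zero_mul]
    refine good_of_map (q := n + 1 - i₀) (hq := hq) ?_
    rw [hsc]
    refine good_scale hm1 _ ?_
    -- the reduction
    set R : Polynomial κ := Q1.map PowerSeries.constantCoeff with hR
    have hRm : R.Monic := hm1.map _
    have hRd : R.natDegree = n + 1 := by rw [hR, hm1.natDegree_map, hd1]
    have hR0 : R ≠ 0 := hRm.ne_zero
    obtain ⟨c, hcr⟩ := IsAlgClosed.exists_root R (by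
      rw [Polynomial.degree_eq_natDegree hR0, hRd]
      exact_mod_cast Nat.succ_ne_zero n)
    obtain ⟨B, hB, hBn⟩ := Polynomial.exists_eq_pow_rootMultiplicity_mul_and_not_dvd R hR0 c
    have hk1 : 0 < R.rootMultiplicity c := (Polynomial.rootMultiplicity_pos hR0).2 hcr
    set k := R.rootMultiplicity c with hk
    have hAm : ((Polynomial.X - Polynomial.C c) ^ k).Monic := (Polynomial.monic_X_sub_C c).pow k
    have hBm : B.Monic := by
      refine Polynomial.Monic.of_mul_monic_left hAm ?_
      rw [← hB]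
      exact hRm
    have hdeg : n + 1 = k + B.natDegree := by
      rw [← hRd, hB, hAm.natDegree_mul hBm, Polynomial.natDegree_pow, Polynomial.natDegree_X_sub_C,
        mul_one]
    have hB1 : 0 < B.natDegree := by
      rcases Nat.eq_zero_or_pos B.natDegree with h | h
      · exfalso
        have hBone : B = 1 := hBm.natDegree_eq_zero.1 h
        rw [h, add_zero] at hdeg
        have hRX : R = (Polynomial.X - Polynomial.C c) ^ (n + 1) := by
          rw [hB, hBone, mul_one, ← hdeg]
        have h1 : R.nextCoeff = 0 := by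
          rw [Polynomial.nextCoeff_of_natDegree_pos (by omega), hRd, hR, Polynomial.coeff_map,
            Nat.add_sub_cancel, hc, if_pos (by omega), hb1, map_zero]
        rw [hRX, (Polynomial.monic_X_sub_C c).nextCoeff_pow, Polynomial.nextCoeff_X_sub_C,
          nsmul_eq_mul] at h1
        have h2 : c = 0 := by
          rcases mul_eq_zero.1 h1 with h3 | h3
          · exact absurd h3 (by exact_mod_cast Nat.succ_ne_zero n)
          · exact neg_eq_zero.1 h3
        have h3 : R.coeff i₀ = 0 := by
          rw [hRX, h2, Polynomial.C_0, sub_zero, Polynomial.coeff_X_pow, if_neg (by omega)]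
        rw [hR, Polynomial.coeff_map, hc, if_pos (by omega)] at h3
        exact hb0 h3
      · exact h
    have hcop : IsCoprime ((Polynomial.X - Polynomial.C c) ^ k) B :=
      IsCoprime.pow_left (((Polynomial.irreducible_X_sub_C c).coprime_iff_not_dvd).2 hBn)
    obtain ⟨A', B', hA'm, hB'm, hA', hB', hprod⟩ := hHFC κ Q1 _ B hm1 hAm hBm hcop hB
    have hA'd : A'.natDegree = k := by
      rw [← hA'm.natDegree_map PowerSeries.constantCoeff, hA', Polynomial.natDegree_pow,
        Polynomial.natDegree_X_sub_C, mul_one]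
    have hB'd : B'.natDegree = B.natDegree := by
      rw [← hB'm.natDegree_map PowerSeries.constantCoeff, hB']
    rw [hprod]
    exact good_mul (ih A' hA'm (by omega)) (ih B' hB'm (by omega))

theorem good_all (hHFC : L_HFC.{u}) [IsAlgClosed κ] [CharZero κ] (n : ℕ) :
    ∀ Q : Polynomial (PowerSeries κ), Q.Monic → Q.natDegree < n → Good Q := by
  induction n with
  | zero => intro Q _ h; exact absurd h (Nat.not_lt_zero _)
  | succ n ih =>
    intro Q hQ hd
    rcases Nat.lt_or_ge Q.natDegree n with h | h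
    · exact ih Q hQ h
    · have hn : Q.natDegree = n := by omega
      rcases Nat.eq_zero_or_pos n with h0 | h0
      · have : Q = 1 := hQ.natDegree_eq_zero.1 (hn.trans h0)
        rw [this, ← pow_zero Polynomial.X]
        exact good_X_pow 0
      · obtain ⟨n', rfl⟩ : ∃ n', n = n' + 1 := ⟨n - 1, by omega⟩
        obtain ⟨t, ht⟩ := shift_coeff hQ hn
        refine good_taylor t (step hHFC ih ?_ ?_ ht)
        · have := Polynomial.leadingCoeff_taylor (r := t) (f := Q)
          exact this.trans hQ
        · rw [Polynomial.natDegree_taylor, hn]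

theorem fin_family {P : Polynomial (PowerSeries κ)} {n : ℕ} (S : Multiset (PowerSeries κ))
    (hS : Multiset.card S = n)
    (hP : P = (S.map (fun a => Polynomial.X - Polynomial.C a)).prod) :
    ∃ x : Fin n → PowerSeries κ, P = ∏ j, (Polynomial.X - Polynomial.C (x j)) := by
  subst hS
  induction S using Quotient.inductionOn with
  | h l =>
    refine ⟨fun j => l.get j, ?_⟩
    rw [hP]
    have h1 : (Multiset.map (fun a => (Polynomial.X - Polynomial.C a :
        Polynomial (PowerSeries κ))) (l : Multiset (PowerSeries κ))).prod =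
        (l.map (fun a => (Polynomial.X - Polynomial.C a : Polynomial (PowerSeries κ)))).prod := by
      rw [Multiset.map_coe, Multiset.prod_coe]
    refine h1.trans ?_
    exact (Fin.prod_univ_fun_getElem l (fun a => (Polynomial.X - Polynomial.C a :
        Polynomial (PowerSeries κ)))).symm

end

theorem npu_NPX (hHFC : L_HFC.{u}) : T_NPU.{u} := by
  intro κ _ _ _ Q hQ
  obtain ⟨m, hm, S, hS⟩ := good_all hHFC (Q.natDegree + 1) Q hQ (Nat.lt_succ_self _)
  have hcard : Multiset.card S = Q.natDegree := by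
    have h1 := congrArg Polynomial.natDegree hS
    rw [hQ.natDegree_map, Polynomial.natDegree_multiset_prod_X_sub_C_eq_card] at h1
    exact h1.symm
  obtain ⟨x, hx⟩ := fin_family S hcard hS
  refine ⟨m, E m hm, x, Nat.one_le_iff_ne_zero.2 hm, PowerSeries.expand_X m hm,
    fun a => PowerSeries.expand_C m hm a, fun c hc => E_zero hc, hx⟩


end NPUb

theorem pf_NPU : T_NPU.{u} := NPUb.npu_NPX npu_HFC

end Pool.Agent.H46.IX
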