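import Pool.Agent.H15.IX.TE

/-!
# Row NUM of idx_modules: the inequality for large powers of `p`
-/

set_option autoImplicit false

open Finset Pool.Agent.H15.IX

namespace Pool.Agent.H46.IX

/-- increments of the powers -/
def nm_ph (p : ℕ) : ℕ → ℕ
  | 0 => 1
  | s + 1 => p ^ (s + 1) - p ^ s

theorem nm_sum_ph (p : ℕ) (hp : 1 ≤ p) (S : ℕ) :
    ∑ s ∈ range (S + 1), nm_ph p s = p ^ S := by
  induction S with
  | zero => simp [nm_ph]
  | succ S ih =>
    rw [sum_range_succ, ih]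
    simp only [nm_ph]
    have : p ^ S ≤ p ^ (S + 1) := Nat.pow_le_pow_right hp (Nat.le_succ S)
    omega

theorem nm_two_ph (p : ℕ) (hp : 2 ≤ p) (s : ℕ) : p ^ s ≤ 2 * nm_ph p s := by
  cases s with
  | zero => simp [nm_ph]
  | succ s =>
    simp only [nm_ph]
    have : p ^ s * 2 ≤ p ^ s * p := Nat.mul_le_mul_left _ hp
    rw [pow_succ]
    omega

/-- the weight as a sum over the divisors -/
theorem nm_wp (p : ℕ) (hp : p.Prime) (m B : ℕ) (hm : 1 ≤ m) (hB : m < p ^ B) :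
    wp p m = ∑ s ∈ range B, if p ^ s ∣ m then nm_ph p s else 0 := by
  haveI := Fact.mk hp
  have hv : padicValNat p m < B := by
    have h1 : p ^ padicValNat p m ≤ m := Nat.le_of_dvd hm pow_padicValNat_dvd
    exact (Nat.pow_lt_pow_iff_right hp.one_lt).1 (lt_of_le_of_lt h1 hB)
  rw [← sum_filter]
  have : (range B).filter (fun s => p ^ s ∣ m) = range (padicValNat p m + 1) := by
    ext s
    simp only [mem_filter, mem_range]
    rw [padicValNat_dvd_iff_le (by omega)]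
    omega
  rw [this, nm_sum_ph p hp.one_le]
  rfl

/-- the summatory function -/
def nm_f (p M : ℕ) : ℕ := ∑ m ∈ Ioc 0 M, wp p m

theorem nm_f_eq (p : ℕ) (hp : p.Prime) (M B : ℕ) (hB : M < p ^ B) :
    nm_f p M = ∑ s ∈ range B, nm_ph p s * (M / p ^ s) := by
  unfold nm_f
  rw [sum_congr rfl (fun m hm => nm_wp p hp m B (mem_Ioc.1 hm).1
    (lt_of_le_of_lt (mem_Ioc.1 hm).2 hB)), sum_comm]
  refine sum_congr rfl fun s _ => ?_
  rw [← sum_filter, sum_const, Nat.Ioc_filter_dvd_card_eq_div, smul_eq_mul, mul_comm]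

theorem nm_sub (p : ℕ) (hp : p.Prime) (d l : ℕ) (hd : 1 ≤ d) (hl : 1 ≤ l) :
    nm_f p (d * l - 1) ≤ d * nm_f p (l - 1) + d ^ 2 * l := by
  by_cases h0 : d * l - 1 = 0
  · rw [h0]; simp [nm_f]
  have hB : d * l - 1 < p ^ (Nat.log p (d * l - 1) + 1) :=
    Nat.lt_pow_succ_log_self hp.one_lt _
  have hlD : l - 1 ≤ d * l - 1 := by
    have : l ≤ d * l := Nat.le_mul_of_pos_left l hd
    omega
  rw [nm_f_eq p hp (d * l - 1) _ hB, nm_f_eq p hp (l - 1) _ (lt_of_le_of_lt hlD hB)]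
  have key : ∀ s, (d * l - 1) / p ^ s ≤ d * ((l - 1) / p ^ s) + d := by
    intro s
    have hP : 0 < p ^ s := Nat.pow_pos hp.pos
    have h1 : l - 1 < p ^ s * ((l - 1) / p ^ s + 1) := Nat.lt_mul_div_succ _ hP
    have h2 : l ≤ p ^ s * ((l - 1) / p ^ s + 1) := by omega
    have h3 : d * l ≤ d * (p ^ s * ((l - 1) / p ^ s + 1)) := Nat.mul_le_mul_left _ h2
    refine Nat.div_le_of_le_mul ?_
    calc d * l - 1 ≤ d * l := Nat.sub_le _ _
      _ ≤ d * (p ^ s * ((l - 1) / p ^ s + 1)) := h3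
      _ = p ^ s * (d * ((l - 1) / p ^ s) + d) := by ring
  have h4 : p ^ Nat.log p (d * l - 1) ≤ d * l - 1 := Nat.pow_log_le_self p h0
  have h5 : d * p ^ Nat.log p (d * l - 1) ≤ d ^ 2 * l := by
    calc d * p ^ Nat.log p (d * l - 1) ≤ d * (d * l) :=
          Nat.mul_le_mul_left _ (h4.trans (Nat.sub_le _ _))
      _ = d ^ 2 * l := by ring
  calc ∑ s ∈ range (Nat.log p (d * l - 1) + 1), nm_ph p s * ((d * l - 1) / p ^ s)
      ≤ ∑ s ∈ range (Nat.log p (d * l - 1) + 1), nm_ph p s * (d * ((l - 1) / p ^ s) + d) :=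
        sum_le_sum fun s _ => Nat.mul_le_mul_left _ (key s)
    _ = d * ∑ s ∈ range (Nat.log p (d * l - 1) + 1), nm_ph p s * ((l - 1) / p ^ s) +
        d * ∑ s ∈ range (Nat.log p (d * l - 1) + 1), nm_ph p s := by
      rw [mul_sum, mul_sum, ← sum_add_distrib]
      exact sum_congr rfl fun s _ => by ring
    _ = d * ∑ s ∈ range (Nat.log p (d * l - 1) + 1), nm_ph p s * ((l - 1) / p ^ s) +
        d * p ^ Nat.log p (d * l - 1) := by rw [nm_sum_ph p hp.one_le]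
    _ ≤ _ := Nat.add_le_add_left h5 _

theorem nm_val (p : ℕ) (hp : p.Prime) (b d m : ℕ) (hm : 0 < m) (hlt : m < d * p ^ b)
    (hn : ¬ p ^ b ∣ m) : wp p (d * p ^ b - m) = wp p m := by
  haveI := Fact.mk hp
  unfold wp
  congr 1
  have hm0 : m ≠ 0 := by omega
  have hk0 : d * p ^ b - m ≠ 0 := by omega
  have hvb : padicValNat p m < b := by
    by_contra hc
    exact hn ((padicValNat_dvd_iff_le hm0).2 (not_lt.1 hc))
  have hde : ∀ s, s ≤ b → p ^ s ∣ d * p ^ b := fun s hs =>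
    Dvd.dvd.mul_left (pow_dvd_pow p hs) d
  refine le_antisymm ?_ ?_
  · by_contra hc
    have h1 : p ^ (padicValNat p m + 1) ∣ d * p ^ b - m :=
      (padicValNat_dvd_iff_le hk0).2 (by omega)
    have h2 : p ^ (padicValNat p m + 1) ∣ d * p ^ b - (d * p ^ b - m) :=
      Nat.dvd_sub (hde _ (by omega)) h1
    rw [show d * p ^ b - (d * p ^ b - m) = m by omega] at h2
    have h3 := (padicValNat_dvd_iff_le hm0).1 h2
    omega
  · refine (padicValNat_dvd_iff_le hk0).1 ?_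
    exact Nat.dvd_sub (hde _ hvb.le) pow_padicValNat_dvd

theorem nm_refl (p d j l e : ℕ) (h : j + l = e) (hd : 1 ≤ d) :
    ∑ m ∈ Ioo (d * j) (d * e), wp p m = ∑ m ∈ Ioc 0 (d * l - 1), wp p (d * e - m) := by
  have h1 : d * e = d * j + d * l := by rw [← h]; ring
  refine sum_nbij' (fun m => d * e - m) (fun m => d * e - m) ?_ ?_ ?_ ?_ ?_
  · intro m hm
    simp only [mem_Ioo, mem_Ioc] at hm ⊢
    omega
  · intro m hm
    simp only [mem_Ioo, mem_Ioc] at hm ⊢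
    omega
  · intro m hm
    simp only [mem_Ioo, mem_Ioc] at hm ⊢
    omega
  · intro m hm
    simp only [mem_Ioo, mem_Ioc] at hm ⊢
    omega
  · intro m hm
    simp only [mem_Ioo, mem_Ioc] at hm ⊢
    congr 1
    omega

theorem nm_wp_le (p m : ℕ) (hm : 0 < m) : wp p m ≤ m :=
  Nat.le_of_dvd hm pow_padicValNat_dvd

theorem nm_g (p : ℕ) (hp : p.Prime) (b d j l : ℕ) (hd : 1 ≤ d) (h : j + l = p ^ b)
    (hl : 1 ≤ l) :
    ∑ m ∈ Ioo (d * j) (d * p ^ b), wp p m ≤ nm_f p (d * l - 1) + d ^ 2 * l := by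
  have h1 : d * p ^ b = d * j + d * l := by rw [← h]; ring
  rw [nm_refl p d j l (p ^ b) h hd]
  have h2 : ∀ m ∈ Ioc 0 (d * l - 1), wp p (d * p ^ b - m) ≤
      wp p m + (if p ^ b ∣ m then d * p ^ b else 0) := by
    intro m hm
    rw [mem_Ioc] at hm
    by_cases hem : p ^ b ∣ m
    · rw [if_pos hem]
      have h3 := nm_wp_le p (d * p ^ b - m) (by omega)
      omega
    · rw [if_neg hem, nm_val p hp b d m hm.1 (by omega) hem]
      omega
  refine (sum_le_sum h2).trans ?_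
  rw [sum_add_distrib, ← sum_filter, sum_const, Nat.Ioc_filter_dvd_card_eq_div, smul_eq_mul]
  have h3 : (d * l - 1) / p ^ b * (d * p ^ b) ≤ d ^ 2 * l := by
    calc (d * l - 1) / p ^ b * (d * p ^ b) = d * ((d * l - 1) / p ^ b * p ^ b) := by ring
      _ ≤ d * (d * l) := Nat.mul_le_mul_left _ ((Nat.div_mul_le_self _ _).trans (Nat.sub_le _ _))
      _ = d ^ 2 * l := by ring
  exact Nat.add_le_add_left h3 _

theorem nm_g1 (p : ℕ) (hp : p.Prime) (b j l : ℕ) (h : j + l = p ^ b) (hl : 1 ≤ l) :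
    ∑ m ∈ Ioo j (p ^ b), wp p m = nm_f p (l - 1) := by
  have h1 := nm_refl p 1 j l (p ^ b) h le_rfl
  rw [one_mul, one_mul, one_mul] at h1
  rw [h1]
  refine sum_congr rfl fun m hm => ?_
  rw [mem_Ioc] at hm
  have h2 := nm_val p hp b 1 m hm.1 (by omega) (fun hc => by
    have := Nat.le_of_dvd hm.1 hc
    omega)
  rw [one_mul] at h2
  exact h2

theorem nm_low (p : ℕ) (hp : p.Prime) (S M : ℕ) (h : p ^ S ≤ M) :
    S * M ≤ 4 * nm_f p M := by
  have hB : M < p ^ (Nat.log p M + 1) := Nat.lt_pow_succ_log_self hp.one_lt _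
  have hS : S ≤ Nat.log p M := Nat.le_log_of_pow_le hp.one_lt h
  rw [nm_f_eq p hp M _ hB, mul_sum]
  calc S * M = ∑ s ∈ range S, M := by simp
    _ ≤ ∑ s ∈ range S, 4 * (nm_ph p s * (M / p ^ s)) := by
      refine sum_le_sum fun s hs => ?_
      rw [mem_range] at hs
      have hP : 0 < p ^ s := Nat.pow_pos hp.pos
      have h1 : p ^ s ≤ M := (Nat.pow_le_pow_right hp.pos hs.le).trans h
      have h2 : 1 ≤ M / p ^ s := (Nat.one_le_div_iff hP).2 h1
      have h3 : M < p ^ s * (M / p ^ s + 1) := Nat.lt_mul_div_succ _ hP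
      have h4 := nm_two_ph p hp.two_le s
      calc M ≤ p ^ s * (M / p ^ s + 1) := h3.le
        _ ≤ p ^ s * (2 * (M / p ^ s)) := Nat.mul_le_mul_left _ (by omega)
        _ ≤ (2 * nm_ph p s) * (2 * (M / p ^ s)) := Nat.mul_le_mul_right _ h4
        _ = 4 * (nm_ph p s * (M / p ^ s)) := by ring
    _ ≤ ∑ s ∈ range (Nat.log p M + 1), 4 * (nm_ph p s * (M / p ^ s)) :=
      sum_le_sum_of_subset (range_subset_range.2 (by omega))

theorem pf_NUM : T_NUM := by
  intro p n s d hp hd hn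
  obtain ⟨C, hC⟩ : ∃ C : ℕ, C = ∑ k, 2 * d k ^ 2 := ⟨_, rfl⟩
  obtain ⟨S, hS⟩ : ∃ S : ℕ, S = 8 * (C + 1) := ⟨_, rfl⟩
  obtain ⟨b, hb⟩ : ∃ b : ℕ, b = S + (C + 1) := ⟨_, rfl⟩
  have hep : 1 ≤ p ^ b := Nat.pow_pos hp.pos
  refine ⟨p ^ b - 1, ?_⟩
  intro j hj
  have hr : p ^ b - 1 + 1 = p ^ b := by omega
  rw [hr]
  obtain ⟨l, hl⟩ : ∃ l : ℕ, j + l = p ^ b := ⟨p ^ b - j, by omega⟩
  have hl1 : 1 ≤ l := by omega
  have h1 : ∀ k, ∑ m ∈ Ioo (d k * j) (d k * p ^ b), wp p m ≤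
      d k * nm_f p (l - 1) + 2 * d k ^ 2 * l := by
    intro k
    have e1 := nm_g p hp b (d k) j l (hd k) hl hl1
    have e2 := nm_sub p hp (d k) l (hd k) hl1
    calc _ ≤ _ := e1
      _ ≤ (d k * nm_f p (l - 1) + d k ^ 2 * l) + d k ^ 2 * l := Nat.add_le_add_right e2 _
      _ = _ := by ring
  have h2 : ∑ k, ∑ m ∈ Ioo (d k * j) (d k * p ^ b), wp p m ≤
      n * nm_f p (l - 1) + C * l := by
    calc _ ≤ ∑ k, (d k * nm_f p (l - 1) + 2 * d k ^ 2 * l) := sum_le_sum fun k _ => h1 k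
      _ = (∑ k, d k) * nm_f p (l - 1) + C * l := by
        rw [sum_add_distrib, hC, sum_mul, sum_mul]
      _ ≤ _ := Nat.add_le_add_right (Nat.mul_le_mul_right _ hn) _
  have h3 := nm_g1 p hp b j l hl hl1
  have h4 : wp p (p ^ b) = p ^ b := by
    haveI := Fact.mk hp
    unfold wp
    rw [padicValNat.prime_pow]
  have h5 : C * l < nm_f p (l - 1) + p ^ b := by
    by_cases hc : p ^ S ≤ l - 1
    · have e1 := nm_low p hp S (l - 1) hc
      have hpS : 1 ≤ p ^ S := Nat.pow_pos hp.pos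
      have e2 : C * l ≤ (C + 1) * (2 * (l - 1)) := Nat.mul_le_mul (Nat.le_succ C) (by omega)
      have e3 : S * (l - 1) = 4 * ((C + 1) * (2 * (l - 1))) := by rw [hS]; ring
      omega
    · have e1 : l ≤ p ^ S := by omega
      have e2 : C < p ^ (C + 1) := lt_trans (Nat.lt_succ_self C) (Nat.lt_pow_self hp.one_lt)
      have e3 : C * l ≤ C * p ^ S := Nat.mul_le_mul_left _ e1
      have e4 : C * p ^ S < p ^ (C + 1) * p ^ S :=
        Nat.mul_lt_mul_of_pos_right e2 (Nat.pow_pos hp.pos)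
      have e5 : p ^ b = p ^ (C + 1) * p ^ S := by rw [hb, pow_add, mul_comm]
      omega
  rw [h3, h4]
  have h6 : (n + 1) * nm_f p (l - 1) = n * nm_f p (l - 1) + nm_f p (l - 1) := by ring
  rw [h6]
  omega

end Pool.Agent.H46.IX
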