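import Pool.Agent.H39.IX.Targets2
import Pool.Agent.H80.G2.Basic

/-!
# MP_323167_an, row INT: intertwining unitary elements
-/

set_option autoImplicit false

open scoped InnerProductSpace Topology
open Filter Finset Pool.Agent.H80.G2 Pool.Agent.H39.IX

namespace Pool.Agent.H46.IX

section

variable {H : Type} [NormedAddCommGroup H] [InnerProductSpace ℂ H] [CompleteSpace H]

theorem int_norm {u : H →L[ℂ] H} (hu : star u * u = 1) : ‖u‖ ≤ 1 := by
  have h1 := CStarRing.norm_star_mul_self (x := u)
  rw [hu] at h1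
  have h2 : ‖(1 : H →L[ℂ] H)‖ ≤ 1 := ContinuousLinearMap.norm_id_le
  nlinarith [norm_nonneg u]

theorem int_mono {G : ℕ → Finset (H →L[ℂ] H)} (hG : GrpSeq G) {k n : ℕ} (h : k ≤ n) :
    G k ⊆ G n := by
  induction h with
  | refl => exact Finset.Subset.refl _
  | step _ ih => exact ih.trans (hG.mono _)

theorem int_mul {G : ℕ → Finset (H →L[ℂ] H)} (hG : GrpSeq G) {g h : H →L[ℂ] H} (hg : InG G g)
    (hh : InG G h) : InG G (g * h) := by
  obtain ⟨a, ha⟩ := hg
  obtain ⟨b, hb⟩ := hh
  exact ⟨max a b, hG.mul _ _ (int_mono hG (le_max_left a b) ha) _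
    (int_mono hG (le_max_right a b) hb)⟩

theorem int_star {G : ℕ → Finset (H →L[ℂ] H)} (hG : GrpSeq G) {g : H →L[ℂ] H} (hg : InG G g) :
    InG G (star g) := by
  obtain ⟨a, ha⟩ := hg
  exact ⟨a, hG.star a g ha⟩

theorem int_uni {G : ℕ → Finset (H →L[ℂ] H)} (hG : GrpSeq G) {g : H →L[ℂ] H} (hg : InG G g) :
    star g * g = 1 ∧ g * star g = 1 := by
  obtain ⟨a, ha⟩ := hg
  refine ⟨hG.uni a g ha, ?_⟩
  have := hG.uni a _ (hG.star a g ha)
  rwa [star_star] at this

end

theorem pf_INT (hMN : T_MN) (hPOL : T_POL) : T_INT := by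
  intro H _ _ _ N G hG al be U u T d hU hu hal hb hT hTu hd
  obtain ⟨m, hm⟩ := hMN H G hG
  have hal_mul : ∀ g, InG G g → ∀ h, InG G h → al (g * h) = al g * al h := by
    intro g hg h hh
    rw [hal g hg, hal h hh, hal _ (int_mul hG hg hh)]
    calc U * (g * h) * star U = U * g * 1 * h * star U := by rw [mul_one]; simp only [mul_assoc]
      _ = U * g * star U * (U * h * star U) := by rw [← hU.1]; simp only [mul_assoc]
  have hal_star : ∀ g, InG G g → al (star g) = star (al g) := by
    intro g hg
    rw [hal g hg, hal _ (int_star hG hg), star_mul, star_mul, star_star, mul_assoc]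
  have hal_uni : ∀ g, InG G g → star (al g) * al g = 1 ∧ al g * star (al g) = 1 := by
    intro g hg
    have h1 := int_uni hG hg
    constructor
    · rw [hal g hg, star_mul, star_mul, star_star]
      calc U * (star g * star U) * (U * g * star U) = U * (star g * (star U * U) * g) * star U := by
            simp only [mul_assoc]
        _ = 1 := by rw [hU.1, mul_one, h1.1, mul_one, hU.2]
    · rw [hal g hg, star_mul, star_mul, star_star]
      calc U * g * star U * (U * (star g * star U)) = U * (g * (star U * U) * star g) * star U := by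
            simp only [mul_assoc]
        _ = 1 := by rw [hU.1, mul_one, h1.2, mul_one, hU.2]
  have hbe : ∀ g, InG G g → be g = u * al g * star u := by
    intro g hg
    rw [(hb g hg).2.2, mul_assoc, hu.2, mul_one]
  have hbe_mul : ∀ g, InG G g → ∀ h, InG G h → be (g * h) = be g * be h := by
    intro g hg h hh
    rw [hbe g hg, hbe h hh, hbe _ (int_mul hG hg hh), hal_mul g hg h hh]
    calc u * (al g * al h) * star u = u * al g * 1 * al h * star u := by
          rw [mul_one]; simp only [mul_assoc]
      _ = u * al g * star u * (u * al h * star u) := by rw [← hu.1]; simp only [mul_assoc]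
  have hbe_star : ∀ g, InG G g → be (star g) = star (be g) := by
    intro g hg
    rw [hbe g hg, hbe _ (int_star hG hg), hal_star g hg, star_mul, star_mul, star_star, mul_assoc]
  have hbe_uni : ∀ g, InG G g → star (be g) * be g = 1 := by
    intro g hg
    rw [hbe g hg, star_mul, star_mul, star_star]
    calc u * (star (al g) * star u) * (u * al g * star u) =
        u * (star (al g) * (star u * u) * al g) * star u := by simp only [mul_assoc]
      _ = 1 := by rw [hu.1, mul_one, (hal_uni g hg).1, mul_one, hu.2]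
  have hnal : ∀ g, InG G g → ‖star (al g)‖ ≤ 1 := fun g hg => by
    rw [norm_star]
    exact int_norm (hal_uni g hg).1
  have hnbe : ∀ g, InG G g → ‖be g‖ ≤ 1 := fun g hg => int_norm (hbe_uni g hg)
  set φ : (H →L[ℂ] H) → (H →L[ℂ] H) := fun g => be g * T * star (al g) with hφ
  have hnn : ∀ S : H →L[ℂ] H, ∀ g, InG G g → ‖be g * S * star (al g)‖ ≤ ‖S‖ := by
    intro S g hg
    calc ‖be g * S * star (al g)‖ ≤ ‖be g * S‖ * ‖star (al g)‖ := norm_mul_le _ _
      _ ≤ (‖be g‖ * ‖S‖) * ‖star (al g)‖ := by gcongr; exact norm_mul_le _ _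
      _ ≤ (1 * ‖S‖) * 1 := by
          have := hnal g hg
          have := hnbe g hg
          gcongr
      _ = ‖S‖ := by ring
  have hbd : Bd G φ ‖T‖ := fun g hg => hnn T g hg
  have hmem : m φ ∈ N := hm.mem φ _ hbd N fun g hg =>
    mul_mem (mul_mem (hb g hg).2.1 hT) (star_mem (hb g hg).1)
  have hint : ∀ h, InG G h → be h * m φ = m φ * al h := by
    intro h hh
    have h1 : be h * m φ * star (al h) = m φ := by
      rw [← hm.mull φ _ hbd (be h)]
      have hbd2 : Bd G (fun g => be h * φ g) (‖be h‖ * ‖T‖) := by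
        intro g hg
        refine (norm_mul_le _ _).trans ?_
        have := hbd g hg
        gcongr
      rw [← hm.mulr _ _ hbd2 (star (al h)), ← hm.invl φ _ hbd h hh]
      refine hm.eqv _ _ fun g hg => ?_
      simp only [hφ]
      rw [hbe_mul h hh g hg, hal_mul h hh g hg, star_mul]
      simp only [mul_assoc]
    calc be h * m φ = be h * m φ * (star (al h) * al h) := by rw [(hal_uni h hh).1, mul_one]
      _ = be h * m φ * star (al h) * al h := by simp only [mul_assoc]
      _ = m φ * al h := by rw [h1]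
  have hdist : ‖m φ - u‖ ≤ d := by
    have h1 : Bd G (fun _ => -u) ‖u‖ := fun g _ => by rw [norm_neg]
    have h2 : m (fun g => φ g + -u) = m φ + -u := by
      rw [hm.add φ (fun _ => -u) _ _ hbd h1, hm.cst]
    rw [sub_eq_add_neg, ← h2]
    refine hm.nrm _ d fun g hg => ?_
    have h3 : φ g + -u = be g * (T - u) * star (al g) := by
      simp only [hφ]
      rw [mul_sub, sub_mul, ← (hb g hg).2.2, mul_assoc u, (hal_uni g hg).2, mul_one,
        sub_eq_add_neg]
    rw [h3]
    exact (hnn _ g hg).trans hTu
  obtain ⟨v, hv1, hv2, -, hv4, hv5⟩ := hPOL H (m φ) u d hu hdist hd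
  refine ⟨v, ⟨hv4 N hmem, hv1.1, hv1.2⟩, hv2, fun g hg => ?_⟩
  refine hv5 (al g) (be g) (hint g hg).symm ?_
  have h1 := congrArg star (hint _ (int_star hG hg))
  rw [star_mul, star_mul, hal_star g hg, hbe_star g hg, star_star, star_star] at h1
  exact h1.symm

end Pool.Agent.H46.IX
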