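import Pool.Agent.H39.IX.Targets2
import Pool.Agent.H80.G2.Basic

/-!
# MP_323167_an, row KZB: the limit of the iteration of Kazhdan
-/

set_option autoImplicit false

open scoped InnerProductSpace Topology
open Filter Finset Pool.Agent.H80.G2 Pool.Agent.H39.IX

namespace Pool.Agent.H46.IX

/-- the errors -/
noncomputable def dl (δ : ℝ) : ℕ → ℝ
  | 0 => δ
  | k + 1 => 20 * dl δ k ^ 2

theorem dl_bd {δ : ℝ} (h0 : 0 ≤ δ) (h1 : δ ≤ 6 / 1000) (k : ℕ) :
    0 ≤ dl δ k ∧ dl δ k ≤ δ * (1 / 8) ^ k := by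
  induction k with
  | zero => exact ⟨h0, by simp [dl]⟩
  | succ k ih =>
    have h2 : (1 / 8 : ℝ) ^ k ≤ 1 := pow_le_one₀ (by norm_num) (by norm_num)
    have h3 : (0 : ℝ) ≤ (1 / 8) ^ k := by positivity
    have h4 : dl δ k ≤ 6 / 1000 := by nlinarith [ih.2]
    refine ⟨by simp only [dl]; positivity, ?_⟩
    simp only [dl]
    rw [pow_succ (1 / 8 : ℝ) k]
    nlinarith [ih.1, ih.2]

theorem dl_le {δ : ℝ} (h0 : 0 ≤ δ) (h1 : δ ≤ 6 / 1000) (k : ℕ) : dl δ k ≤ 6 / 1000 := by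
  have ih := dl_bd h0 h1 k
  have h2 : (1 / 8 : ℝ) ^ k ≤ 1 := pow_le_one₀ (by norm_num) (by norm_num)
  nlinarith [ih.2]

theorem pf_KZB (hKZA : T_KZA) : T_KZB := by
  intro H _ _ _ N G hG δ hδ0 hδ1 v hv
  have step : ∀ k, ∀ v, Aph N G (dl δ k) v → ∃ v', Aph N G (dl δ (k + 1)) v' ∧
      ∀ g, InG G g → ‖v' g - v g‖ ≤ dl δ k + 4 * dl δ k ^ 2 := fun k v hv =>
    hKZA H N G hG (dl δ k) (dl_bd hδ0 hδ1 k).1 ((dl_le hδ0 hδ1 k).trans (by norm_num)) v hv
  choose! nx hnx1 hnx2 using step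
  let V : ℕ → (H →L[ℂ] H) → (H →L[ℂ] H) := fun k => Nat.rec v (fun k w => nx k w) k
  have hV : ∀ k, Aph N G (dl δ k) (V k) := by
    intro k
    induction k with
    | zero => exact hv
    | succ k ih => exact hnx1 k _ ih
  have hst : ∀ g, InG G g → ∀ k, dist (V k g) (V (k + 1) g) ≤ 103 / 100 * δ * (1 / 8) ^ k := by
    intro g hg k
    have h1 : ‖V (k + 1) g - V k g‖ ≤ dl δ k + 4 * dl δ k ^ 2 := hnx2 k _ (hV k) g hg
    rw [dist_comm, dist_eq_norm]
    have h2 := dl_bd hδ0 hδ1 k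
    have h3 := dl_le hδ0 hδ1 k
    refine h1.trans ?_
    nlinarith [h2.1, h2.2]
  have hlim : ∀ g, ∃ a, InG G g → Tendsto (fun k => V k g) atTop (𝓝 a) := by
    intro g
    by_cases hg : InG G g
    · obtain ⟨a, ha⟩ := cauchySeq_tendsto_of_complete
        (cauchySeq_of_le_geometric (1 / 8) (103 / 100 * δ) (by norm_num) (hst g hg))
      exact ⟨a, fun _ => ha⟩
    · exact ⟨0, fun h => absurd h hg⟩
  choose v' hv' using hlim
  have hmul : ∀ g, InG G g → ∀ h, InG G h → InG G (g * h) := by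
    rintro g ⟨a, ha⟩ h ⟨b, hb⟩
    have hm : ∀ {k n : ℕ}, k ≤ n → G k ⊆ G n := by
      intro k n hkn
      induction hkn with
      | refl => exact Finset.Subset.refl _
      | step _ ih => exact ih.trans (hG.mono _)
    exact ⟨max a b, hG.mul _ _ (hm (le_max_left a b) ha) _ (hm (le_max_right a b) hb)⟩
  refine ⟨v', ⟨?_, ?_⟩, ?_⟩
  · intro g hg
    have h1 := hv' g hg
    refine ⟨mem_of_comm fun y hy => ?_, ?_, ?_⟩
    · have h2 : Tendsto (fun k => V k g * y) atTop (𝓝 (v' g * y)) := h1.mul_const y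
      have h3 : Tendsto (fun k => V k g * y) atTop (𝓝 (y * v' g)) :=
        (h1.const_mul y).congr fun k => (hy _ ((hV k).uni g hg).1).symm
      exact tendsto_nhds_unique h2 h3
    · have h2 : Tendsto (fun k => star (V k g) * V k g) atTop (𝓝 (star (v' g) * v' g)) :=
        ((continuous_star.tendsto _).comp h1).mul h1
      have h3 : Tendsto (fun k => star (V k g) * V k g) atTop (𝓝 1) :=
        tendsto_const_nhds.congr fun k => ((hV k).uni g hg).2.1.symm
      exact tendsto_nhds_unique h2 h3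
    · have h2 : Tendsto (fun k => V k g * star (V k g)) atTop (𝓝 (v' g * star (v' g))) :=
        h1.mul ((continuous_star.tendsto _).comp h1)
      have h3 : Tendsto (fun k => V k g * star (V k g)) atTop (𝓝 1) :=
        tendsto_const_nhds.congr fun k => ((hV k).uni g hg).2.2.symm
      exact tendsto_nhds_unique h2 h3
  · intro g hg h hh
    have h1 : Tendsto (fun k => ‖V k (g * h) - V k g * V k h‖) atTop
        (𝓝 ‖v' (g * h) - v' g * v' h‖) :=
      ((hv' _ (hmul g hg h hh)).sub ((hv' g hg).mul (hv' h hh))).norm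
    have h2 : Tendsto (fun k => δ * (1 / 8 : ℝ) ^ k) atTop (𝓝 0) := by
      have := (tendsto_pow_atTop_nhds_zero_of_lt_one (r := (1 / 8 : ℝ)) (by norm_num)
        (by norm_num)).const_mul δ
      rwa [mul_zero] at this
    exact le_of_tendsto_of_tendsto' h1 h2 fun k =>
      ((hV k).mul g hg h hh).trans (dl_bd hδ0 hδ1 k).2
  · intro g hg
    have h1 := dist_le_of_le_geometric_of_tendsto₀ (1 / 8) (103 / 100 * δ) (by norm_num)
      (hst g hg) (hv' g hg)
    rw [dist_comm, dist_eq_norm] at h1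
    have h2 : ‖v' g - v g‖ ≤ 103 / 100 * δ / (1 - 1 / 8) := h1
    refine h2.trans ?_
    rw [div_le_iff₀ (by norm_num)]
    linarith

end Pool.Agent.H46.IX
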