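import Pool.Agent.H39.IX.Targets2
import Pool.Agent.H80.G2.Basic

/-!
# MP_323167_an, row MN: means on the union of an increasing sequence of finite groups
-/

set_option autoImplicit false

open scoped InnerProductSpace Topology
open Filter Finset Pool.Agent.H80.G2 Pool.Agent.H39.IX

namespace Pool.Agent.H46.IX

variable {H : Type} [NormedAddCommGroup H] [InnerProductSpace ℂ H] [CompleteSpace H]

/-- the averages -/
noncomputable def av (G : ℕ → Finset (H →L[ℂ] H)) (φ : (H →L[ℂ] H) → (H →L[ℂ] H)) (n : ℕ) :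
    H →L[ℂ] H := ((G n).card : ℂ)⁻¹ • ∑ g ∈ G n, φ g

/-- weak limits -/
def WL (x : ℕ → (H →L[ℂ] H)) (z : H →L[ℂ] H) : Prop :=
  ∀ η ζ : H, Tendsto (fun i => ⟪η, x i ζ⟫_ℂ) (hyperfilter ℕ : Filter ℕ) (𝓝 ⟪η, z ζ⟫_ℂ)

theorem WL.unique {x : ℕ → (H →L[ℂ] H)} {z z' : H →L[ℂ] H} (h : WL x z) (h' : WL x z') :
    z = z' := by
  ext ζ
  refine ext_inner_left ℂ fun η => ?_
  exact tendsto_nhds_unique (h η ζ) (h' η ζ)

theorem WL.congr {x y : ℕ → (H →L[ℂ] H)} {z : H →L[ℂ] H} (h : WL x z) (k : ℕ)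
    (hxy : ∀ n, k ≤ n → x n = y n) : WL y z := by
  intro η ζ
  refine (h η ζ).congr' ?_
  have h1 : ∀ᶠ n in (hyperfilter ℕ : Filter ℕ), k ≤ n :=
    (Nat.hyperfilter_le_atTop) (eventually_ge_atTop k)
  filter_upwards [h1] with n hn
  rw [hxy n hn]

open Classical in
/-- the mean -/
noncomputable def mm (G : ℕ → Finset (H →L[ℂ] H)) (φ : (H →L[ℂ] H) → (H →L[ℂ] H)) : H →L[ℂ] H :=
  if h : ∃ z, WL (av G φ) z then h.choose else 0

theorem mm_eq {G : ℕ → Finset (H →L[ℂ] H)} {φ : (H →L[ℂ] H) → (H →L[ℂ] H)} {z : H →L[ℂ] H}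
    (h : WL (av G φ) z) : mm G φ = z := by
  have h1 : ∃ z, WL (av G φ) z := ⟨z, h⟩
  unfold mm
  rw [dif_pos h1]
  exact h1.choose_spec.unique h

theorem card_ne {G : ℕ → Finset (H →L[ℂ] H)} (hG : GrpSeq G) (n : ℕ) : ((G n).card : ℂ) ≠ 0 := by
  have : 0 < (G n).card := Finset.card_pos.2 ⟨1, hG.one n⟩
  exact_mod_cast this.ne'

theorem av_norm {G : ℕ → Finset (H →L[ℂ] H)} (hG : GrpSeq G) {φ : (H →L[ℂ] H) → (H →L[ℂ] H)}
    {C : ℝ} (h : Bd G φ C) (n : ℕ) : ‖av G φ n‖ ≤ C := by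
  have hc : 0 < ((G n).card : ℝ) := by
    have : 0 < (G n).card := Finset.card_pos.2 ⟨1, hG.one n⟩
    exact_mod_cast this
  unfold av
  rw [norm_smul, norm_inv, Complex.norm_natCast]
  have h1 : ‖∑ g ∈ G n, φ g‖ ≤ (G n).card * C := by
    refine (norm_sum_le_of_le _ fun g hg => h g ⟨n, hg⟩).trans (le_of_eq ?_)
    rw [Finset.sum_const, nsmul_eq_mul]
  calc ((G n).card : ℝ)⁻¹ * ‖∑ g ∈ G n, φ g‖ ≤ ((G n).card : ℝ)⁻¹ * ((G n).card * C) := by gcongr
    _ = C := by rw [← mul_assoc, inv_mul_cancel₀ hc.ne', one_mul]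

theorem mono_le {G : ℕ → Finset (H →L[ℂ] H)} (hG : GrpSeq G) {k n : ℕ} (h : k ≤ n) :
    G k ⊆ G n := by
  induction h with
  | refl => exact Finset.Subset.refl _
  | step _ ih => exact ih.trans (hG.mono _)

theorem pf_MN (hWLB : T_WLB) : T_MN := by
  intro H _ _ _ G hG
  have key : ∀ (φ : (H →L[ℂ] H) → (H →L[ℂ] H)) (C : ℝ), Bd G φ C →
      WL (av G φ) (mm G φ) ∧ ‖mm G φ‖ ≤ C ∧
      (∀ N : VonNeumannAlgebra H, (∀ i, av G φ i ∈ N) → mm G φ ∈ N) ∧
      ∀ ξ : ℕ → H, (Summable fun n => ‖ξ n‖ ^ 2) →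
        Tendsto (fun i => tr ξ (av G φ i)) (hyperfilter ℕ : Filter ℕ) (𝓝 (tr ξ (mm G φ))) := by
    intro φ C h
    obtain ⟨z, h1, h2, h3, h4⟩ := hWLB H (hyperfilter ℕ) (av G φ) C (av_norm hG h)
    have h5 : mm G φ = z := mm_eq h2
    rw [h5]
    exact ⟨h2, h1, h3, h4⟩
  have hinv : ∀ k, ∀ h ∈ G k, star h * h = 1 ∧ h * star h = 1 := by
    intro k h hh
    refine ⟨hG.uni k h hh, ?_⟩
    have := hG.uni k _ (hG.star k h hh)
    rwa [star_star] at this
  refine ⟨mm G, ?_, ?_, ?_, ?_, ?_, ?_, ?_, ?_, ?_, ?_, ?_⟩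
  · intro φ ψ C D hφ hψ
    refine mm_eq fun η ζ => ?_
    have h1 := ((key φ C hφ).1 η ζ).add ((key ψ D hψ).1 η ζ)
    rw [add_apply, inner_add_right]
    refine h1.congr fun n => ?_
    rw [← inner_add_right, ← add_apply]
    unfold av
    rw [Finset.sum_add_distrib, smul_add]
  · intro φ C hφ a
    refine mm_eq fun η ζ => ?_
    have h1 := (key φ C hφ).1 (star a η) ζ
    have e : ∀ T : H →L[ℂ] H, ⟪η, (a * T) ζ⟫_ℂ = ⟪star a η, T ζ⟫_ℂ := by
      intro T
      rw [ContinuousLinearMap.star_eq_adjoint, ContinuousLinearMap.adjoint_inner_left]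
      rfl
    rw [e]
    refine h1.congr fun n => ?_
    rw [← e]
    unfold av
    rw [mul_smul_comm, Finset.mul_sum]
  · intro φ C hφ a
    refine mm_eq fun η ζ => ?_
    refine ((key φ C hφ).1 η (a ζ)).congr fun n => ?_
    have : av G (fun g => φ g * a) n = av G φ n * a := by
      unfold av
      rw [smul_mul_assoc, Finset.sum_mul]
    rw [this]
    rfl
  · intro φ C hφ
    refine mm_eq fun η ζ => ?_
    have e : ∀ T : H →L[ℂ] H, ⟪η, (star T) ζ⟫_ℂ = (starRingEnd ℂ) ⟪ζ, T η⟫_ℂ := by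
      intro T
      rw [ContinuousLinearMap.star_eq_adjoint, ContinuousLinearMap.adjoint_inner_right,
        inner_conj_symm]
    rw [e]
    have h1 := (Complex.continuous_conj.tendsto _).comp ((key φ C hφ).1 ζ η)
    refine h1.congr fun n => ?_
    have : av G (fun g => star (φ g)) n = star (av G φ n) := by
      unfold av
      rw [star_smul, star_sum, star_inv₀, star_natCast]
    rw [this, e]
    rfl
  · intro a
    refine mm_eq fun η ζ => ?_
    refine tendsto_const_nhds.congr fun n => ?_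
    have : av G (fun _ => a) n = a := by
      unfold av
      rw [Finset.sum_const, ← Nat.cast_smul_eq_nsmul ℂ, smul_smul,
        inv_mul_cancel₀ (card_ne hG n), one_smul]
    rw [this]
  · intro φ ψ h
    have : av G φ = av G ψ := by
      funext n
      unfold av
      rw [Finset.sum_congr rfl fun g hg => h g ⟨n, hg⟩]
    unfold mm
    rw [this]
  · rintro φ C hφ h ⟨k, hk⟩
    refine mm_eq ((key φ C hφ).1.congr k fun n hn => ?_)
    have hh : h ∈ G n := mono_le hG hn hk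
    unfold av
    congr 1
    symm
    refine Finset.sum_bij' (fun g _ => h * g) (fun g _ => star h * g) ?_ ?_ ?_ ?_ ?_
    · intro g hg
      exact hG.mul n _ hh _ hg
    · intro g hg
      exact hG.mul n _ (hG.star n h hh) _ hg
    · intro g _
      rw [← mul_assoc, (hinv n h hh).1, one_mul]
    · intro g _
      rw [← mul_assoc, (hinv n h hh).2, one_mul]
    · intro g _
      rfl
  · rintro φ C hφ h ⟨k, hk⟩
    refine mm_eq ((key φ C hφ).1.congr k fun n hn => ?_)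
    have hh : h ∈ G n := mono_le hG hn hk
    unfold av
    congr 1
    symm
    refine Finset.sum_bij' (fun g _ => g * h) (fun g _ => g * star h) ?_ ?_ ?_ ?_ ?_
    · intro g hg
      exact hG.mul n _ hg _ hh
    · intro g hg
      exact hG.mul n _ hg _ (hG.star n h hh)
    · intro g _
      rw [mul_assoc, (hinv n h hh).2, mul_one]
    · intro g _
      rw [mul_assoc, (hinv n h hh).1, mul_one]
    · intro g _
      rfl
  · intro φ C hφ
    exact (key φ C hφ).2.1
  · intro φ C hφ N hN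
    refine (key φ C hφ).2.2.1 N fun n => ?_
    unfold av
    exact smul_mem' N _ (sum_mem fun g hg => hN g ⟨n, hg⟩)
  · intro φ C hφ ξ hξ D hD
    have h1 := ((key φ C hφ).2.2.2 ξ hξ).norm
    refine le_of_tendsto h1 (Filter.Eventually.of_forall fun n => ?_)
    have hc : 0 < ((G n).card : ℝ) := by
      have : 0 < (G n).card := Finset.card_pos.2 ⟨1, hG.one n⟩
      exact_mod_cast this
    unfold av
    rw [tr_smul, tr_sum hξ, norm_mul, norm_inv, Complex.norm_natCast]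
    have h2 : ‖∑ g ∈ G n, tr ξ (φ g)‖ ≤ (G n).card * D := by
      refine (norm_sum_le_of_le _ fun g hg => hD g ⟨n, hg⟩).trans (le_of_eq ?_)
      rw [Finset.sum_const, nsmul_eq_mul]
    calc ((G n).card : ℝ)⁻¹ * ‖∑ g ∈ G n, tr ξ (φ g)‖
        ≤ ((G n).card : ℝ)⁻¹ * ((G n).card * D) := by gcongr
      _ = D := by rw [← mul_assoc, inv_mul_cancel₀ hc.ne', one_mul]

end Pool.Agent.H46.IX
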